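import Pool.Agent.W645.CP.Topo

set_option autoImplicit false
set_option linter.unusedSectionVars false

/-!
# The compact convex set is perfectly normal and not separable
-/

open Set Cardinal Topology TopologicalSpace

namespace Pool.Agent.W645.CP

/-- A set without right separated sequences of length `ω₁`: countably many of the neighbourhoods
`W x` of the points `x` of an open set cover it. -/
theorem countable_cover {K V : Set (Om → ℝ)}
    (hK : ∀ U : Om → Set (Om → ℝ), (∀ α, IsOpen (U α)) → ∀ z : Om → Om → ℝ, (∀ α, z α ∈ K) →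
      (∀ α, z α ∈ U α) → ∃ α β, α < β ∧ z β ∈ U α)
    (W : (Om → ℝ) → Set (Om → ℝ)) (hW : ∀ x, IsOpen (W x)) (hxW : ∀ x ∈ K ∩ V, x ∈ W x) :
    ∃ C : Set (Om → ℝ), C.Countable ∧ C ⊆ K ∩ V ∧ K ∩ V ⊆ ⋃ x ∈ C, W x := by
  classical
  by_contra hcon
  have hne : ∀ (η : Om) (prev : ∀ ξ : Om, ξ < η → {x // x ∈ K ∩ V}),
      ∃ x : {x // x ∈ K ∩ V}, ∀ ξ (h : ξ < η), x.1 ∉ W (prev ξ h).1 := by
    intro η prev
    by_contra hc
    push Not at hc
    refine hcon ⟨Set.range fun ξ : {b : Om // b < η} => (prev ξ.1 ξ.2).1, ?_, ?_, ?_⟩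
    · have := Pool.Agent.Helper391.ForceCH.countable_Iio η
      exact Set.countable_range _
    · rintro _ ⟨ξ, rfl⟩
      exact (prev ξ.1 ξ.2).2
    · intro x hx
      obtain ⟨ξ, h, hmem⟩ := hc ⟨x, hx⟩
      exact mem_iUnion₂.2 ⟨_, ⟨⟨ξ, h⟩, rfl⟩, hmem⟩
  let z : Om → {x // x ∈ K ∩ V} :=
    (wellFounded_lt (α := Om)).fix fun η prev => (hne η prev).choose
  have hz : ∀ η ξ, ξ < η → (z η).1 ∉ W (z ξ).1 := by
    intro η ξ h
    have h1 : z η = (hne η fun ξ _ => z ξ).choose := (wellFounded_lt (α := Om)).fix_eq _ η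
    rw [h1]
    exact (hne η fun ξ _ => z ξ).choose_spec ξ h
  obtain ⟨α, β, hαβ, hmem⟩ := hK (fun α => W (z α).1) (fun α => hW _) (fun α => (z α).1)
    (fun α => (z α).2.1) fun α => hxW _ (z α).2
  exact hz β α hαβ hmem

theorem perfectlyNormal {K : Set (Om → ℝ)} (hcomp : IsCompact K)
    (hK : ∀ U : Om → Set (Om → ℝ), (∀ α, IsOpen (U α)) → ∀ z : Om → Om → ℝ, (∀ α, z α ∈ K) →
      (∀ α, z α ∈ U α) → ∃ α β, α < β ∧ z β ∈ U α) : PerfectlyNormalSpace K := by
  classical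
  have : CompactSpace K := isCompact_iff_compactSpace.1 hcomp
  refine { closed_gdelta := ?_ }
  intro s hs
  obtain ⟨V, hV, hsV⟩ := isOpen_induced_iff.1 hs.isOpen_compl
  have hreg : ∀ x : Om → ℝ, ∃ W : Set (Om → ℝ), IsOpen W ∧ (x ∈ V → x ∈ W ∧ closure W ⊆ V) := by
    intro x
    by_cases hx : x ∈ V
    · obtain ⟨W, h1, h2, h3⟩ := exists_mem_nhds_isClosed_subset (hV.mem_nhds hx)
      obtain ⟨W', h4, h5, h6⟩ := mem_nhds_iff.1 h1
      exact ⟨W', h5, fun _ => ⟨h6, (closure_minimal h4 h2).trans h3⟩⟩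
    · exact ⟨∅, isOpen_empty, fun h => absurd h hx⟩
  choose W hW hxW using hreg
  obtain ⟨C, hC, hCsub, hcov⟩ := countable_cover hK W hW (V := V) fun x hx => (hxW x hx.2).1
  have hs2 : s = ⋂ x ∈ C, (Subtype.val ⁻¹' closure (W x) : Set K)ᶜ := by
    ext w
    simp only [mem_iInter, mem_compl_iff, mem_preimage]
    have hw : w ∉ s ↔ w.1 ∈ V := by
      have : w ∈ sᶜ ↔ w ∈ (Subtype.val ⁻¹' V : Set K) := by rw [hsV]
      exact this
    constructor
    · intro hws x hx hmem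
      exact (hw.2 ((hxW x (hCsub hx).2).2 hmem)) hws
    · intro h
      by_contra hws
      obtain ⟨x, hx, hmem⟩ := mem_iUnion₂.1 (hcov ⟨w.2, hw.1 hws⟩)
      exact h x hx (subset_closure hmem)
  rw [hs2]
  refine IsGδ.biInter hC fun x _ => IsOpen.isGδ ?_
  exact (isClosed_closure.preimage continuous_subtype_val).isOpen_compl

/-- A perfectly normal compact set which is closed under truncations and has, for each
coordinate, a point whose value there is not zero, is not separable. -/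
theorem not_separable {K : Set (Om → ℝ)} (hpn : PerfectlyNormalSpace K)
    (htr : ∀ z ∈ K, ∀ γ, res (Iio γ) z ∈ K) (hone : ∀ γ, ∃ z ∈ K, z γ ≠ 0) :
    ¬ SeparableSpace K := by
  classical
  rintro ⟨S, hS, hdense⟩
  -- each point of `K` is determined by countably many coordinates
  have hpt : ∀ s : K, ∃ C : Set Om, C.Countable ∧ ∀ w : K, (∀ β ∈ C, w.1 β = s.1 β) → w = s := by
    intro s
    have h1 : IsGδ ({s} : Set K) := isClosed_singleton.isGδ
    obtain ⟨T, hT, hTc, hs⟩ := h1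
    have h2 : ∀ U ∈ T, ∃ F : Finset Om, ∀ w : K, (∀ β ∈ F, w.1 β = s.1 β) → w ∈ U := by
      intro U hU
      obtain ⟨V, hV, hUV⟩ := isOpen_induced_iff.1 (hT U hU)
      have hsU : s ∈ U := by
        have : s ∈ ⋂₀ T := by rw [← hs]; rfl
        exact this U hU
      have hsV : s.1 ∈ V := by rw [← hUV] at hsU; exact hsU
      obtain ⟨F, n, h⟩ := exists_box hV hsV
      refine ⟨F, fun w hw => ?_⟩
      rw [← hUV]
      refine h _ fun β hβ => ?_
      rw [hw β hβ, sub_self, abs_zero]; positivity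
    choose! F hF using h2
    refine ⟨⋃ U ∈ T, (F U : Set Om), hTc.biUnion fun U _ => (F U).countable_toSet, ?_⟩
    intro w hw
    have : w ∈ ⋂₀ T := fun U hU => hF U hU w fun β hβ =>
      hw β (mem_iUnion₂.2 ⟨U, hU, by exact_mod_cast hβ⟩)
    rw [← hs] at this
    exact this
  choose C hC hCs using hpt
  obtain ⟨γ, hγ⟩ := countable_bdd (hS.biUnion fun s _ => hC s)
  have hvan : ∀ s ∈ S, s.1 γ = 0 := by
    intro s hs
    have h1 := hCs s ⟨res (Iio γ) s.1, htr _ s.2 γ⟩ (by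
      intro β hβ
      exact res_mem (show β ∈ Iio γ from hγ β (mem_iUnion₂.2 ⟨s, hs, hβ⟩)) _)
    have h2 : res (Iio γ) s.1 γ = s.1 γ := congrFun (congrArg Subtype.val h1) γ
    rw [← h2]
    exact res_not_mem (show γ ∉ Iio γ from lt_irrefl γ) _
  have hcl : IsClosed {z : K | z.1 γ = 0} :=
    isClosed_eq ((continuous_apply γ).comp continuous_subtype_val) continuous_const
  have hall : ∀ z : K, z.1 γ = 0 := by
    intro z
    exact (closure_minimal (fun s hs => hvan s hs) hcl) (hdense z)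
  obtain ⟨z, hz, hne⟩ := hone γ
  exact hne (hall ⟨z, hz⟩)

/-- the negative part -/
theorem negative (h : GenericSystem) : ∃ K : Set (Om → ℝ), IsCompact K ∧ Convex ℝ K ∧
    PerfectlyNormalSpace K ∧ ¬ SeparableSpace K := by
  obtain ⟨G, h1, h2, h3⟩ := h
  have hcomp := isCompact_KG h2
  have hpn := perfectlyNormal hcomp (no_right_separated h1 h2 h3)
  refine ⟨KG G, hcomp, convex_KG, hpn, not_separable hpn (fun z hz γ => trunc_KG hz γ) ?_⟩
  intro γ
  obtain ⟨p, hp, hγ⟩ := h2 γ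
  obtain ⟨v, hv, h4⟩ := p.one_X hγ
  obtain ⟨z, hz, rfl⟩ := lift h1 hp hv
  refine ⟨z, hz, ?_⟩
  rw [res_mem (by exact_mod_cast hγ)] at h4
  rw [h4]; exact one_ne_zero

end Pool.Agent.W645.CP
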