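import Pool.Agent.W645.CP.Close

set_option autoImplicit false
set_option linter.unusedSectionVars false

/-!
# The amalgamation theorem
-/

open Set

namespace Pool.Agent.W645.CP

variable {ι : Type} [LinearOrder ι] [NoMaxOrder ι] [Nonempty ι]

/-- Let `c 0, c 1, …` be copies of one condition over a common root. For some `M` there is an
amalgam `q` of `c 0, …, c M` such that each point of the polytope of `q` looks on the last copy up
to `ε` like on one of the other copies. -/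
theorem amalgam (n n0 : ℕ) (t : Finset (Fin n → ℚ)) (e : ℕ → Fin n → ι)
    (mono : ∀ k, StrictMono (e k))
    (root : ∀ k l (i : Fin n), (i : ℕ) < n0 → e k i = e l i)
    (blk : ∀ k l (i j : Fin n), k < l → n0 ≤ (j : ℕ) → e k i < e l j)
    (c : ℕ → Cnd ι) (hD : ∀ k, (c k).D = Finset.univ.image (e k))
    (hX : ∀ k, (c k).X =
      convexHull ℝ ((fun g : Fin n → ℚ => place (e k) (castT g)) '' (t : Set _)))
    (ε : ℝ) (hε : 0 < ε) :
    ∃ M, 0 < M ∧ ∃ q : Cnd ι, (∀ k ≤ M, q ≤ c k) ∧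
      ∀ y ∈ q.X, ∃ k < M, ∀ i, |y (e k i) - y (e M i)| ≤ ε := by
  classical
  obtain ⟨N', hN'⟩ := exists_nat_gt (2 / ε)
  have hNr : (0 : ℝ) < N' := lt_trans (by positivity) hN'
  have hN : 0 < N' := by exact_mod_cast hNr
  have hle : (1 : ℝ) / N' + 1 / N' ≤ ε := by
    have h1 : 2 / ε * ε = 2 := by field_simp
    have h2 : 2 < N' * ε := by nlinarith
    rw [← add_div, div_le_iff₀ hNr]
    nlinarith
  obtain ⟨S, hS1, hS2⟩ := exists_net n n0 N' hN
  obtain ⟨σ0, hσ0, _⟩ := hS2 (fun _ => 1) (fun _ _ _ _ => le_rfl) fun _ _ => ⟨zero_le_one, le_rfl⟩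
  have : Nonempty (↥t → ↥S) := ⟨fun _ => ⟨σ0, hσ0⟩⟩
  let G := Fintype.card (↥t → ↥S)
  have hG : 0 < G := Fintype.card_pos
  let eqv : (↥t → ↥S) ≃ Fin G := Fintype.equivFin _
  let σ : ℕ → (Fin n → ℚ) → Fin n → ℚ := fun k g =>
    if k = G * N' then 1 else
      if hg : g ∈ t then ((eqv.symm ⟨k % G, Nat.mod_lt _ hG⟩) ⟨g, hg⟩).1 else 1
  have hone : Antitone (1 : Fin n → ℚ) ∧ (∀ i, 0 ≤ (1 : Fin n → ℚ) i ∧ (1 : Fin n → ℚ) i ≤ 1) ∧
      ∀ i : Fin n, (i : ℕ) < n0 → (1 : Fin n → ℚ) i = 1 :=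
    ⟨fun _ _ _ => le_rfl, fun _ => ⟨zero_le_one, le_rfl⟩, fun _ _ => rfl⟩
  have hσ : ∀ k g, Antitone (σ k g) ∧ (∀ i, 0 ≤ σ k g i ∧ σ k g i ≤ 1) ∧
      ∀ i : Fin n, (i : ℕ) < n0 → σ k g i = 1 := by
    intro k g
    simp only [σ]
    split_ifs with h1 h2
    · exact hone
    · exact hS1 _ (Subtype.property _)
    · exact hone
  let B : Blk ι :=
    { n := n, n0 := n0, t := t, e := e, mono := mono, root := root, blk := blk, c := c
      hD := hD, hX := hX, M := G * N', hM := Nat.mul_pos hG hN, σ := σ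
      σanti := fun k g => (hσ k g).1
      σ01 := fun k g => (hσ k g).2.1
      σroot := fun k g => (hσ k g).2.2
      σM := fun g i => by simp [σ] }
  refine ⟨G * N', Nat.mul_pos hG hN, B.q, fun k hk => B.q_le hk, fun y hy => ?_⟩
  rw [B.q_X] at hy
  obtain ⟨k, hk, h⟩ := B.close G N' N' hG hN hN rfl S hS2 (by
    intro j hj s hs
    refine ⟨G * j + eqv fun g => ⟨s g, hs g⟩, Nat.le_add_right _ _, ?_, fun g => ?_⟩
    · rw [Nat.mul_succ]
      exact Nat.add_lt_add_left (Fin.is_lt _) _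
    · have hne : G * j + ((eqv fun g => ⟨s g, hs g⟩ : Fin G) : ℕ) ≠ G * N' := by
        have h1 : G * j + ((eqv fun g => ⟨s g, hs g⟩ : Fin G) : ℕ) < G * (j + 1) := by
          rw [Nat.mul_succ]
          exact Nat.add_lt_add_left (Fin.is_lt _) _
        exact (lt_of_lt_of_le h1 (Nat.mul_le_mul_left G hj)).ne
      have hmod : (⟨(G * j + ((eqv fun g => ⟨s g, hs g⟩ : Fin G) : ℕ)) % G,
          Nat.mod_lt _ hG⟩ : Fin G) = eqv fun g => ⟨s g, hs g⟩ := by
        apply Fin.ext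
        simp only [Nat.mul_add_mod]
        exact Nat.mod_eq_of_lt (Fin.is_lt _)
      change σ _ _ = _
      simp only [σ, if_neg hne]
      rw [dif_pos g.2, hmod, Equiv.symm_apply_apply]) y hy
  exact ⟨k, hk, fun i => (h i).trans hle⟩

end Pool.Agent.W645.CP
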