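import Mathlib

set_option autoImplicit false
set_option linter.unusedSectionVars false

/-!
# Finite approximations of a compact convex set

A condition is a finite set `D` of coordinates together with a rational polytope in `[0,1]^D` which
is closed under truncation and contains, for every coordinate of `D`, a point whose value there
is `1`.
-/

open Set

namespace Pool.Agent.W645.CP

section

variable {ι : Type} [LinearOrder ι]

/-- set the coordinates outside `S` to zero -/
noncomputable def res (S : Set ι) : (ι → ℝ) →ₗ[ℝ] (ι → ℝ) where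
  toFun v := S.indicator v
  map_add' u v := Set.indicator_add' S u v
  map_smul' c v := by
    funext β
    by_cases h : β ∈ S <;> simp [h]

theorem res_apply (S : Set ι) (v : ι → ℝ) (β : ι) : res S v β = S.indicator v β := rfl

theorem res_mem {S : Set ι} {β : ι} (h : β ∈ S) (v : ι → ℝ) : res S v β = v β := by
  simp [res_apply, h]

theorem res_not_mem {S : Set ι} {β : ι} (h : β ∉ S) (v : ι → ℝ) : res S v β = 0 := by
  simp [res_apply, h]

theorem res_res (S T : Set ι) (v : ι → ℝ) : res S (res T v) = res (S ∩ T) v := by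
  change S.indicator (T.indicator v) = (S ∩ T).indicator v
  rw [Set.indicator_indicator]

theorem res_comm (S T : Set ι) (v : ι → ℝ) : res S (res T v) = res T (res S v) := by
  rw [res_res, res_res, Set.inter_comm]

theorem res_eq_self {S : Set ι} {v : ι → ℝ} (h : ∀ β ∉ S, v β = 0) : res S v = v := by
  funext β
  by_cases hb : β ∈ S
  · exact res_mem hb v
  · rw [res_not_mem hb, h β hb]

/-- The real vector given by a finitely supported rational vector. -/
def toR (h : ι →₀ ℚ) : ι → ℝ := fun β => ((h β : ℚ) : ℝ)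

/-- A condition: a finite set `D` of coordinates, and a finite set `H` of rational vectors with
support in `D`; it stands for the polytope spanned by `H`. -/
structure Cnd (ι : Type) [LinearOrder ι] where
  /-- the coordinates -/
  D : Finset ι
  /-- the generating vectors -/
  H : Finset (ι →₀ ℚ)
  supp : ∀ h ∈ H, ∀ β ∉ D, h β = 0
  unit : ∀ h ∈ H, ∀ β, 0 ≤ h β ∧ h β ≤ 1
  zero : (0 : ι → ℝ) ∈ convexHull ℝ (toR '' (H : Set (ι →₀ ℚ)))
  trunc : ∀ h ∈ H, ∀ γ, res (Iio γ) (toR h) ∈ convexHull ℝ (toR '' (H : Set (ι →₀ ℚ)))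
  one : ∀ β ∈ D, ∃ v ∈ convexHull ℝ (toR '' (H : Set (ι →₀ ℚ))), v β = 1

/-- The polytope of a condition. -/
def Cnd.X (p : Cnd ι) : Set (ι → ℝ) := convexHull ℝ (toR '' (p.H : Set (ι →₀ ℚ)))

/-- `q ≤ p`: the condition `q` has more coordinates, and its polytope projects onto the one
of `p`. -/
instance : Preorder (Cnd ι) where
  le q p := p.D ⊆ q.D ∧ res (p.D : Set ι) '' q.X = p.X
  le_refl p := by
    refine ⟨Finset.Subset.refl _, ?_⟩
    have h : ∀ v ∈ p.X, res (p.D : Set ι) v = v := by
      intro v hv
      have h1 : p.X ⊆ {v | ∀ β ∉ p.D, v β = 0} := by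
        refine convexHull_min ?_ ?_
        · rintro _ ⟨h, hh, rfl⟩ β hβ
          simp [toR, p.supp h hh β hβ]
        · intro u hu w hw a b _ _ _ β hβ
          simp [hu β hβ, hw β hβ]
      exact res_eq_self fun β hβ => h1 hv β (by simpa using hβ)
    ext v
    constructor
    · rintro ⟨w, hw, rfl⟩
      rw [h w hw]; exact hw
    · intro hv
      exact ⟨v, hv, h v hv⟩
  le_trans r q p h1 h2 := by
    refine ⟨h2.1.trans h1.1, ?_⟩
    rw [← h2.2, ← h1.2, Set.image_image]
    refine Set.image_congr fun v _ => ?_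
    rw [res_res, Set.inter_eq_left.2 (by exact_mod_cast h2.1)]

theorem Cnd.le_def {p q : Cnd ι} : q ≤ p ↔ p.D ⊆ q.D ∧ res (p.D : Set ι) '' q.X = p.X := Iff.rfl

theorem Cnd.convex_X (p : Cnd ι) : Convex ℝ p.X := convex_convexHull ℝ _

theorem Cnd.zero_mem (p : Cnd ι) : (0 : ι → ℝ) ∈ p.X := p.zero

theorem Cnd.supp_X (p : Cnd ι) {v : ι → ℝ} (hv : v ∈ p.X) {β : ι} (hβ : β ∉ p.D) : v β = 0 := by
  have h1 : p.X ⊆ {v | ∀ β ∉ p.D, v β = 0} := by
    refine convexHull_min ?_ ?_
    · rintro _ ⟨h, hh, rfl⟩ β hβ
      simp [toR, p.supp h hh β hβ]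
    · intro u hu w hw a b _ _ _ β hβ
      simp [hu β hβ, hw β hβ]
  exact h1 hv β hβ

theorem Cnd.unit_X (p : Cnd ι) {v : ι → ℝ} (hv : v ∈ p.X) (β : ι) : 0 ≤ v β ∧ v β ≤ 1 := by
  have h1 : p.X ⊆ {v | ∀ β, 0 ≤ v β ∧ v β ≤ 1} := by
    refine convexHull_min ?_ ?_
    · rintro _ ⟨h, hh, rfl⟩ β
      have := p.unit h hh β
      refine ⟨?_, ?_⟩
      · change (0 : ℝ) ≤ ((h β : ℚ) : ℝ)
        exact_mod_cast this.1
      · change ((h β : ℚ) : ℝ) ≤ 1
        exact_mod_cast this.2
    · intro u hu w hw a b ha hb hab β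
      have h1 := hu β
      have h2 := hw β
      refine ⟨?_, ?_⟩
      · have : 0 ≤ a * u β + b * w β := by nlinarith [mul_nonneg ha h1.1, mul_nonneg hb h2.1]
        simpa using this
      · have : a * u β + b * w β ≤ 1 := by
          nlinarith [mul_le_mul_of_nonneg_left h1.2 ha, mul_le_mul_of_nonneg_left h2.2 hb]
        simpa using this
  exact h1 hv β

theorem Cnd.trunc_X (p : Cnd ι) {v : ι → ℝ} (hv : v ∈ p.X) (γ : ι) : res (Iio γ) v ∈ p.X := by
  have h1 : p.X ⊆ (res (Iio γ)) ⁻¹' p.X := by
    refine convexHull_min ?_ (p.convex_X.linear_preimage _)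
    rintro _ ⟨h, hh, rfl⟩
    exact p.trunc h hh γ
  exact h1 hv

theorem Cnd.one_X (p : Cnd ι) {β : ι} (hβ : β ∈ p.D) : ∃ v ∈ p.X, v β = 1 := p.one β hβ

/-- Multiplying a vector by a decreasing function with values in `[0,1]` gives a convex
combination of truncations. -/
theorem mul_mem {X : Set (ι → ℝ)} (hc : Convex ℝ X) (hz : (0 : ι → ℝ) ∈ X)
    (ht : ∀ v ∈ X, ∀ γ, res (Iio γ) v ∈ X) (D : Finset ι) :
    ∀ v ∈ X, (∀ β ∉ D, v β = 0) → ∀ σ : ι → ℝ, (∀ β ∈ D, 0 ≤ σ β ∧ σ β ≤ 1) →
      (∀ β ∈ D, ∀ β' ∈ D, β ≤ β' → σ β' ≤ σ β) → (fun β => σ β * v β) ∈ X := by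
  induction D using Finset.induction_on_max with
  | empty =>
    intro v _ hv σ _ _
    have : (fun β => σ β * v β) = 0 := by
      funext β; simp [hv β (by simp)]
    rw [this]; exact hz
  | insert a s ha ih =>
    intro v hvX hv σ h01 hanti
    have haD : a ∈ insert a s := Finset.mem_insert_self _ _
    rcases eq_or_lt_of_le (h01 a haD).2 with h1 | h1
    · have : (fun β => σ β * v β) = v := by
        funext β
        by_cases hβ : β ∈ insert a s
        · have hle : β ≤ a := by
            rcases Finset.mem_insert.1 hβ with h | h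
            · exact h.le
            · exact (ha β h).le
          have h2 := hanti β hβ a haD hle
          have h3 := (h01 β hβ).2
          have : σ β = 1 := by linarith
          simp [this]
        · simp [hv β hβ]
      rw [this]; exact hvX
    · set c := σ a with hc'
      have hpos : 0 < 1 - c := by linarith
      have hw := ht v hvX a
      have hw0 : ∀ β ∉ s, res (Iio a) v β = 0 := by
        intro β hβ
        by_cases h : β < a
        · rw [res_mem (show β ∈ Iio a from h)]
          refine hv β ?_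
          rw [Finset.mem_insert]
          rintro (h' | h')
          · exact h.ne h'
          · exact hβ h'
        · exact res_not_mem (show β ∉ Iio a from h) _
      have h2 := ih _ hw hw0 (fun β => (σ β - c) / (1 - c)) (by
        intro β hβ
        have hβ' : β ∈ insert a s := Finset.mem_insert_of_mem hβ
        have h3 := hanti β hβ' a haD (ha β hβ).le
        have h4 := (h01 β hβ').2
        refine ⟨div_nonneg (by linarith) hpos.le, ?_⟩
        rw [div_le_one hpos]; linarith) (by
        intro β hβ β' hβ' hle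
        have h3 := hanti β (Finset.mem_insert_of_mem hβ) β' (Finset.mem_insert_of_mem hβ') hle
        change (σ β' - c) / (1 - c) ≤ (σ β - c) / (1 - c)
        gcongr)
      have h3 := hc hvX h2 (h01 a haD).1 hpos.le (by ring)
      convert h3 using 1
      funext β
      simp only [Pi.add_apply, Pi.smul_apply, smul_eq_mul]
      rw [← hc']
      by_cases hβ : β ∈ insert a s
      · rcases Finset.mem_insert.1 hβ with h | h
        · subst h
          rw [res_not_mem (show β ∉ Iio β from lt_irrefl β)]
          rw [← hc']; ring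
        · rw [res_mem (show β ∈ Iio a from ha β h)]
          field_simp
          ring
      · have h4 : res (Iio a) v β = 0 :=
          hw0 β fun h => hβ (Finset.mem_insert_of_mem h)
        rw [hv β hβ, h4]; ring

/-- the vector with values `g i` at the coordinates `e i` -/
noncomputable def place {n : ℕ} (e : Fin n → ι) (g : Fin n → ℝ) : ι → ℝ := Function.extend e g 0

theorem place_apply {n : ℕ} {e : Fin n → ι} (he : Function.Injective e) (g : Fin n → ℝ)
    (i : Fin n) : place e g (e i) = g i := he.extend_apply _ _ _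

theorem place_zero {n : ℕ} {e : Fin n → ι} (g : Fin n → ℝ) {β : ι} (h : ∀ i, e i ≠ β) :
    place e g β = 0 := by
  rw [place, Function.extend_apply' _ _ _ (by rintro ⟨i, hi⟩; exact h i hi)]
  rfl

/-- multiplication of a placed vector by a decreasing sequence -/
theorem place_mul_mem {X : Set (ι → ℝ)} (hc : Convex ℝ X) (hz : (0 : ι → ℝ) ∈ X)
    (ht : ∀ v ∈ X, ∀ γ, res (Iio γ) v ∈ X) {n : ℕ} {e : Fin n → ι} (he : StrictMono e)
    (g : Fin n → ℝ) (hg : place e g ∈ X) (a : Fin n → ℝ) (ha : ∀ i, 0 ≤ a i ∧ a i ≤ 1)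
    (hanti : Antitone a) : place e (fun i => a i * g i) ∈ X := by
  have h := mul_mem hc hz ht (Finset.univ.image e) _ hg (by
    intro β hβ
    refine place_zero _ fun i hi => hβ ?_
    rw [← hi]; exact Finset.mem_image_of_mem _ (Finset.mem_univ _)) (place e a) (by
    intro β hβ
    obtain ⟨i, _, rfl⟩ := Finset.mem_image.1 hβ
    rw [place_apply he.injective]; exact ha i) (by
    intro β hβ β' hβ' hle
    obtain ⟨i, _, rfl⟩ := Finset.mem_image.1 hβ
    obtain ⟨j, _, rfl⟩ := Finset.mem_image.1 hβ'
    rw [place_apply he.injective, place_apply he.injective]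
    exact hanti (he.le_iff_le.1 hle))
  convert h using 1
  funext β
  by_cases hb : ∃ i, e i = β
  · obtain ⟨i, rfl⟩ := hb
    simp [place_apply he.injective]
  · push Not at hb
    simp [place_zero _ hb]

end

end Pool.Agent.W645.CP
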