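import Pool.Agent.W645.CP.Basic

set_option autoImplicit false
set_option linter.unusedSectionVars false

/-!
# Amalgamation of many copies of a condition

`M + 1` copies `c 0, …, c M` of one condition over a common root are amalgamated. The vertices of
the last copy are extended to all the copies by vectors which are, on the copy number `k`, the
product of the vertex with the decreasing function `σ k`.
-/

open Set

namespace Pool.Agent.W645.CP

section

variable {ι : Type} [LinearOrder ι]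

/-- function with prescribed values on the blocks -/
theorem exists_hat {n M : ℕ} (e : ℕ → Fin n → ι) (a : ℕ → Fin n → ℚ)
    (h : ∀ k ≤ M, ∀ l ≤ M, ∀ i j, e k i = e l j → a k i = a l j) :
    ∃ f : ι → ℚ, (∀ k ≤ M, ∀ i, f (e k i) = a k i) ∧
      ∀ β, (∀ k ≤ M, ∀ i, e k i ≠ β) → f β = 0 := by
  classical
  refine ⟨fun β => if hb : ∃ k i, k ≤ M ∧ e k i = β then
    a hb.choose hb.choose_spec.choose else 0, ?_, ?_⟩
  · intro k hk i
    have hb : ∃ k' i', k' ≤ M ∧ e k' i' = e k i := ⟨k, i, hk, rfl⟩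
    beta_reduce
    rw [dif_pos hb]
    exact h _ hb.choose_spec.choose_spec.1 k hk _ _ hb.choose_spec.choose_spec.2
  · intro β hβ
    beta_reduce
    rw [dif_neg]
    rintro ⟨k, i, hk, h'⟩
    exact hβ k hk i h'

/-- cast of a rational tuple -/
def castT {n : ℕ} (g : Fin n → ℚ) : Fin n → ℝ := fun i => ((g i : ℚ) : ℝ)

/-- The data of the amalgamation. -/
structure Blk (ι : Type) [LinearOrder ι] where
  n : ℕ
  n0 : ℕ
  t : Finset (Fin n → ℚ)
  e : ℕ → Fin n → ι
  mono : ∀ k, StrictMono (e k)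
  root : ∀ k l (i : Fin n), (i : ℕ) < n0 → e k i = e l i
  blk : ∀ k l (i j : Fin n), k < l → n0 ≤ (j : ℕ) → e k i < e l j
  c : ℕ → Cnd ι
  hD : ∀ k, (c k).D = Finset.univ.image (e k)
  hX : ∀ k, (c k).X = convexHull ℝ ((fun g : Fin n → ℚ => place (e k) (castT g)) '' (t : Set _))
  M : ℕ
  hM : 0 < M
  σ : ℕ → (Fin n → ℚ) → Fin n → ℚ
  σanti : ∀ k g, Antitone (σ k g)
  σ01 : ∀ k g i, 0 ≤ σ k g i ∧ σ k g i ≤ 1
  σroot : ∀ k g (i : Fin n), (i : ℕ) < n0 → σ k g i = 1
  σM : ∀ g i, σ M g i = 1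

namespace Blk

variable (B : Blk ι)

theorem eq_iff {k l : ℕ} {i j : Fin B.n} (h : B.e k i = B.e l j) :
    i = j ∧ (k = l ∨ (i : ℕ) < B.n0) := by
  rcases lt_trichotomy k l with hkl | hkl | hkl
  · by_cases hj : (j : ℕ) < B.n0
    · have h1 := B.root l k j hj
      have h2 : i = j := (B.mono k).injective (h.trans h1)
      exact ⟨h2, Or.inr (by rw [h2]; exact hj)⟩
    · exact absurd h (B.blk k l i j hkl (not_lt.1 hj)).ne
  · subst hkl
    exact ⟨(B.mono k).injective h, Or.inl rfl⟩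
  · by_cases hi : (i : ℕ) < B.n0
    · have h1 := B.root k l i hi
      exact ⟨(B.mono l).injective (h1.symm.trans h), Or.inr hi⟩
    · exact absurd h.symm (B.blk l k j i hkl (not_lt.1 hi)).ne

theorem vertex_mem (k : ℕ) {g : Fin B.n → ℚ} (hg : g ∈ B.t) :
    place (B.e k) (castT g) ∈ (B.c k).X := by
  rw [B.hX k]
  exact subset_convexHull ℝ _ ⟨g, hg, rfl⟩

theorem t01 {g : Fin B.n → ℚ} (hg : g ∈ B.t) (i : Fin B.n) : 0 ≤ g i ∧ g i ≤ 1 := by
  have h := (B.c 0).unit_X (B.vertex_mem 0 hg) (B.e 0 i)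
  rw [place_apply (B.mono 0).injective] at h
  simp only [castT] at h
  refine ⟨?_, ?_⟩
  · exact_mod_cast h.1
  · exact_mod_cast h.2

theorem hat_exists (g : Fin B.n → ℚ) : ∃ f : ι → ℚ,
    (∀ k ≤ B.M, ∀ i, f (B.e k i) = B.σ k g i * g i) ∧
      ∀ β, (∀ k ≤ B.M, ∀ i, B.e k i ≠ β) → f β = 0 := by
  refine exists_hat B.e (fun k i => B.σ k g i * g i) ?_
  intro k _ l _ i j h
  obtain ⟨rfl, h2 | h2⟩ := B.eq_iff h
  · rw [h2]
  · simp only [B.σroot k g i h2, B.σroot l g i h2]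

/-- the extension of the vertex `g` to all the blocks -/
noncomputable def hat (g : Fin B.n → ℚ) : ι → ℚ := (B.hat_exists g).choose

theorem hat_apply (g : Fin B.n → ℚ) {k : ℕ} (hk : k ≤ B.M) (i : Fin B.n) :
    B.hat g (B.e k i) = B.σ k g i * g i := (B.hat_exists g).choose_spec.1 k hk i

theorem hat_zero (g : Fin B.n → ℚ) {β : ι} (h : ∀ k ≤ B.M, ∀ i, B.e k i ≠ β) :
    B.hat g β = 0 := (B.hat_exists g).choose_spec.2 β h

/-- the real version of `hat` -/
noncomputable def hatR (g : Fin B.n → ℚ) : ι → ℝ := fun β => ((B.hat g β : ℚ) : ℝ)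

theorem hatR_apply (g : Fin B.n → ℚ) {k : ℕ} (hk : k ≤ B.M) (i : Fin B.n) :
    B.hatR g (B.e k i) = (B.σ k g i : ℝ) * (g i : ℝ) := by
  rw [hatR, B.hat_apply g hk]; push_cast; rfl

theorem hatR_zero (g : Fin B.n → ℚ) {β : ι} (h : ∀ k ≤ B.M, ∀ i, B.e k i ≠ β) :
    B.hatR g β = 0 := by
  rw [hatR, B.hat_zero g h]; simp

/-- the coordinates of the amalgam -/
noncomputable def Dq : Finset ι := by
  classical
  exact (Finset.range (B.M + 1)).biUnion fun k => Finset.univ.image (B.e k)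

theorem mem_Dq {β : ι} : β ∈ B.Dq ↔ ∃ k ≤ B.M, ∃ i, B.e k i = β := by
  classical
  simp only [Dq, Finset.mem_biUnion, Finset.mem_range, Finset.mem_image, Finset.mem_univ,
    true_and, Nat.lt_succ_iff]

theorem e_mem_Dq {k : ℕ} (hk : k ≤ B.M) (i : Fin B.n) : B.e k i ∈ B.Dq :=
  B.mem_Dq.2 ⟨k, hk, i, rfl⟩

theorem hatR_not_mem (g : Fin B.n → ℚ) {β : ι} (h : β ∉ B.Dq) : B.hatR g β = 0 :=
  B.hatR_zero g fun k hk i h' => h (B.mem_Dq.2 ⟨k, hk, i, h'⟩)

variable [NoMaxOrder ι] [Nonempty ι]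

theorem top_exists : ∃ γ : ι, ∀ β ∈ B.Dq, β < γ := by
  obtain ⟨b, hb⟩ := B.Dq.finite_toSet.bddAbove
  obtain ⟨γ, hγ⟩ := exists_gt b
  exact ⟨γ, fun β hβ => lt_of_le_of_lt (hb hβ) hγ⟩

/-- a coordinate above all others -/
noncomputable def top : ι := B.top_exists.choose

theorem lt_top {β : ι} (h : β ∈ B.Dq) : β < B.top := B.top_exists.choose_spec β h

/-- the cut points -/
noncomputable def Γ : Finset ι := insert B.top B.Dq

theorem cut (v : ι → ℝ) (hv : ∀ β ∉ B.Dq, v β = 0) (δ : ι) :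
    ∃ γ ∈ B.Γ, res (Iio δ) v = res (Iio γ) v := by
  classical
  by_cases hne : (B.Dq.filter (δ ≤ ·)).Nonempty
  · have hmem := Finset.min'_mem _ hne
    refine ⟨_, Finset.mem_insert_of_mem (Finset.mem_filter.1 hmem).1, ?_⟩
    have h1 := (Finset.mem_filter.1 hmem).2
    funext β
    by_cases hβ : β ∈ B.Dq
    · by_cases hlt : β < δ
      · rw [res_mem (show β ∈ Iio δ from hlt), res_mem (show β ∈ Iio _ from lt_of_lt_of_le hlt h1)]
      · have h2 : ¬ β < (B.Dq.filter (δ ≤ ·)).min' hne :=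
          not_lt.2 (Finset.min'_le _ _ (Finset.mem_filter.2 ⟨hβ, not_lt.1 hlt⟩))
        rw [res_not_mem (show β ∉ Iio δ from hlt), res_not_mem (show β ∉ Iio _ from h2)]
    · have h3 := hv β hβ
      simp only [res_apply, Set.indicator_apply, h3, ite_self]
  · refine ⟨B.top, Finset.mem_insert_self _ _, ?_⟩
    funext β
    by_cases hβ : β ∈ B.Dq
    · have hlt : β < δ := by
        by_contra h
        exact hne ⟨β, Finset.mem_filter.2 ⟨hβ, not_lt.1 h⟩⟩
      rw [res_mem (show β ∈ Iio δ from hlt), res_mem (show β ∈ Iio _ from B.lt_top hβ)]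
    · have h3 := hv β hβ
      simp only [res_apply, Set.indicator_apply, h3, ite_self]

/-- the index set of the generating vectors -/
abbrev Idx : Type := (↥B.t × ↥B.Γ) ⊕ (↥B.t × Fin B.M)

/-- the generating vectors -/
noncomputable def F : B.Idx → ι → ℚ
  | Sum.inl x => fun β => if β < x.2.1 then B.hat x.1.1 β else 0
  | Sum.inr x => Function.extend (B.e x.2) x.1.1 0

/-- the generating vectors, as real vectors -/
noncomputable def Ψ : B.Idx → ι → ℝ
  | Sum.inl x => res (Iio x.2.1) (B.hatR x.1.1)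
  | Sum.inr x => place (B.e x.2) (castT x.1.1)

theorem cast_F (x : B.Idx) (β : ι) : ((B.F x β : ℚ) : ℝ) = B.Ψ x β := by
  rcases x with ⟨g, γ⟩ | ⟨g, k⟩
  · by_cases h : β < γ.1
    · simp [F, Ψ, h, res_apply, hatR]
    · simp [F, Ψ, h, res_apply]
  · by_cases hb : ∃ i, B.e k i = β
    · obtain ⟨i, rfl⟩ := hb
      simp only [F, Ψ]
      rw [(B.mono k).injective.extend_apply, place_apply (B.mono k).injective]
      rfl
    · simp only [F, Ψ]
      rw [Function.extend_apply' _ _ _ (by simpa using hb), place_zero _ (by simpa using hb)]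
      simp

theorem Ψ_zero (x : B.Idx) {β : ι} (hβ : β ∉ B.Dq) : B.Ψ x β = 0 := by
  rcases x with ⟨g, γ⟩ | ⟨g, k⟩
  · simp only [Ψ, res_apply, Set.indicator_apply, B.hatR_not_mem g.1 hβ, ite_self]
  · simp only [Ψ]
    exact place_zero _ fun i hi => hβ (B.mem_Dq.2 ⟨k, k.2.le, i, hi⟩)

theorem F_zero (x : B.Idx) {β : ι} (hβ : β ∉ B.Dq) : B.F x β = 0 := by
  have h := B.cast_F x β
  rw [B.Ψ_zero x hβ] at h
  exact_mod_cast h

theorem Ψ01 (x : B.Idx) (β : ι) : 0 ≤ B.Ψ x β ∧ B.Ψ x β ≤ 1 := by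
  by_cases hβ : β ∈ B.Dq
  · obtain ⟨l, hl, i, rfl⟩ := B.mem_Dq.1 hβ
    rcases x with ⟨g, γ⟩ | ⟨g, k⟩
    · have h1 := B.t01 g.2 i
      have h2 := B.σ01 l g.1 i
      have h1' : (0 : ℝ) ≤ (g.1 i : ℝ) ∧ (g.1 i : ℝ) ≤ 1 := ⟨by exact_mod_cast h1.1, by exact_mod_cast h1.2⟩
      have h2' : (0 : ℝ) ≤ (B.σ l g.1 i : ℝ) ∧ (B.σ l g.1 i : ℝ) ≤ 1 :=
        ⟨by exact_mod_cast h2.1, by exact_mod_cast h2.2⟩
      simp only [Ψ, res_apply, Set.indicator_apply, B.hatR_apply g.1 hl]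
      split_ifs
      · exact ⟨mul_nonneg h2'.1 h1'.1, mul_le_one₀ h2'.2 h1'.1 h1'.2⟩
      · exact ⟨le_rfl, zero_le_one⟩
    · exact (B.c k).unit_X (B.vertex_mem k g.2) _
  · rw [B.Ψ_zero x hβ]
    exact ⟨le_rfl, zero_le_one⟩

/-- the polytope of the amalgam -/
def Y : Set (ι → ℝ) := convexHull ℝ (Set.range B.Ψ)

theorem Ψ_mem (x : B.Idx) : B.Ψ x ∈ B.Y := subset_convexHull ℝ _ ⟨x, rfl⟩

theorem convex_Y : Convex ℝ B.Y := convex_convexHull ℝ _

theorem X_sub_Y {k : ℕ} (hk : k < B.M) : (B.c k).X ⊆ B.Y := by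
  rw [B.hX k]
  refine convexHull_min ?_ B.convex_Y
  rintro _ ⟨g, hg, rfl⟩
  exact B.Ψ_mem (Sum.inr (⟨g, hg⟩, ⟨k, hk⟩))

theorem zero_Y : (0 : ι → ℝ) ∈ B.Y := B.X_sub_Y B.hM (B.c 0).zero_mem

theorem trunc_hat {g : Fin B.n → ℚ} (hg : g ∈ B.t) (δ : ι) : res (Iio δ) (B.hatR g) ∈ B.Y := by
  obtain ⟨γ, hγ, h⟩ := B.cut (B.hatR g) (fun β hβ => B.hatR_not_mem g hβ) δ
  rw [h]
  exact B.Ψ_mem (Sum.inl (⟨g, hg⟩, ⟨γ, hγ⟩))

theorem trunc_Ψ (x : B.Idx) (δ : ι) : res (Iio δ) (B.Ψ x) ∈ B.Y := by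
  rcases x with ⟨g, γ⟩ | ⟨g, k⟩
  · simp only [Ψ]
    rw [res_res, Set.Iio_inter_Iio]
    exact B.trunc_hat g.2 _
  · exact B.X_sub_Y k.2 ((B.c k).trunc_X (B.vertex_mem k g.2) δ)

theorem res_hat (k : ℕ) (hk : k ≤ B.M) (g : Fin B.n → ℚ) :
    res ((B.c k).D : Set ι) (B.hatR g) = place (B.e k) (fun i => (B.σ k g i : ℝ) * (g i : ℝ)) := by
  funext β
  rw [B.hD k]
  by_cases hb : ∃ i, B.e k i = β
  · obtain ⟨i, rfl⟩ := hb
    rw [res_mem (by simp), place_apply (B.mono k).injective, B.hatR_apply g hk]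
  · push Not at hb
    rw [res_not_mem (by simpa using hb), place_zero _ hb]

theorem res_Ψ_mem {k : ℕ} (hk : k ≤ B.M) (x : B.Idx) :
    res ((B.c k).D : Set ι) (B.Ψ x) ∈ (B.c k).X := by
  rcases x with ⟨g, γ⟩ | ⟨g, l⟩
  · simp only [Ψ]
    rw [res_comm, B.res_hat k hk]
    refine (B.c k).trunc_X ?_ _
    refine place_mul_mem (B.c k).convex_X (B.c k).zero_mem (fun v hv γ => (B.c k).trunc_X hv γ)
      (B.mono k) (castT g.1) (B.vertex_mem k g.2) (fun i => (B.σ k g.1 i : ℝ)) ?_ ?_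
    · intro i
      have h2 := B.σ01 k g.1 i
      exact ⟨by exact_mod_cast h2.1, by exact_mod_cast h2.2⟩
    · intro i j hij
      have := B.σanti k g.1 hij
      beta_reduce
      exact_mod_cast this
  · simp only [Ψ]
    by_cases hkl : (l : ℕ) = k
    · have h1 : res ((B.c k).D : Set ι) (place (B.e l) (castT g.1)) =
          place (B.e l) (castT g.1) := by
        refine res_eq_self fun β hβ => place_zero _ fun i hi => hβ ?_
        rw [B.hD k, ← hi, hkl]; simp
      rw [h1, hkl]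
      exact B.vertex_mem k g.2
    · -- only the root is left
      have h1 : res ((B.c k).D : Set ι) (place (B.e l) (castT g.1)) =
          place (B.e k) (fun i => (if (i : ℕ) < B.n0 then (1 : ℝ) else 0) * castT g.1 i) := by
        funext β
        rw [B.hD k]
        by_cases hb : ∃ i, B.e k i = β
        · obtain ⟨i, rfl⟩ := hb
          rw [res_mem (by simp), place_apply (B.mono k).injective]
          by_cases hi : (i : ℕ) < B.n0
          · rw [B.root k l i hi, place_apply (B.mono l).injective]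
            simp [hi]
          · rw [place_zero]
            · simp [hi]
            · intro j hj
              obtain ⟨rfl, h | h⟩ := B.eq_iff hj
              · exact hkl h
              · exact hi h
        · push Not at hb
          rw [res_not_mem (by simpa using hb), place_zero _ hb]
      rw [h1]
      refine place_mul_mem (B.c k).convex_X (B.c k).zero_mem (fun v hv γ => (B.c k).trunc_X hv γ)
        (B.mono k) (castT g.1) (B.vertex_mem k g.2) _ ?_ ?_
      · intro i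
        split_ifs
        · exact ⟨zero_le_one, le_rfl⟩
        · exact ⟨le_rfl, zero_le_one⟩
      · intro i j hij
        have hij' : (i : ℕ) ≤ j := hij
        beta_reduce
        split_ifs with h1 h2
        · exact le_rfl
        · omega
        · exact zero_le_one
        · exact le_rfl

theorem res_Y {k : ℕ} (hk : k ≤ B.M) : res ((B.c k).D : Set ι) '' B.Y = (B.c k).X := by
  apply Set.Subset.antisymm
  · rintro _ ⟨v, hv, rfl⟩
    have h1 : B.Y ⊆ (res ((B.c k).D : Set ι)) ⁻¹' (B.c k).X := by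
      refine convexHull_min ?_ ((B.c k).convex_X.linear_preimage _)
      rintro _ ⟨x, rfl⟩
      exact B.res_Ψ_mem hk x
    exact h1 hv
  · have h2 : Convex ℝ (res ((B.c k).D : Set ι) '' B.Y) := B.convex_Y.linear_image _
    rw [B.hX k]
    refine convexHull_min ?_ h2
    rintro _ ⟨g, hg, rfl⟩
    rcases lt_or_eq_of_le hk with h | h
    · refine ⟨B.Ψ (Sum.inr (⟨g, hg⟩, ⟨k, h⟩)), B.Ψ_mem _, ?_⟩
      refine res_eq_self fun β hβ => place_zero _ fun i hi => hβ ?_
      rw [B.hD k, ← hi]; simp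
    · refine ⟨res (Iio B.top) (B.hatR g), B.trunc_hat hg _, ?_⟩
      rw [res_comm, B.res_hat k hk]
      have h3 : (fun i => (B.σ k g i : ℝ) * (g i : ℝ)) = castT g := by
        funext i
        rw [h, B.σM]; simp [castT]
      rw [h3]
      refine res_eq_self fun β hβ => place_zero _ fun i hi => hβ ?_
      rw [← hi]
      exact B.lt_top (B.e_mem_Dq hk i)

/-- the generating vectors, as finitely supported vectors -/
noncomputable def HH : Finset (ι →₀ ℚ) := by
  classical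
  exact Finset.univ.image fun x : B.Idx =>
    Finsupp.onFinset B.Dq (B.F x) fun β h => by
      by_contra h'
      exact h (B.F_zero x h')

theorem mem_HH {h : ι →₀ ℚ} : h ∈ B.HH ↔ ∃ x, ∀ β, h β = B.F x β := by
  classical
  simp only [HH, Finset.mem_image, Finset.mem_univ, true_and]
  constructor
  · rintro ⟨x, rfl⟩
    exact ⟨x, fun β => rfl⟩
  · rintro ⟨x, hx⟩
    refine ⟨x, ?_⟩
    ext β
    exact (hx β).symm

theorem hull_HH : convexHull ℝ (toR '' (B.HH : Set (ι →₀ ℚ))) = B.Y := by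
  classical
  have h : toR '' (B.HH : Set (ι →₀ ℚ)) = Set.range B.Ψ := by
    ext v
    constructor
    · rintro ⟨h, hh, rfl⟩
      obtain ⟨x, hx⟩ := B.mem_HH.1 hh
      refine ⟨x, ?_⟩
      funext β
      rw [toR, hx β, B.cast_F]
    · rintro ⟨x, rfl⟩
      refine ⟨Finsupp.onFinset B.Dq (B.F x) fun β h => by
        by_contra h'
        exact h (B.F_zero x h'), B.mem_HH.2 ⟨x, fun β => rfl⟩, ?_⟩
      funext β
      exact B.cast_F x β
  rw [h]; rfl

/-- the amalgam -/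
noncomputable def q : Cnd ι where
  D := B.Dq
  H := B.HH
  supp := by
    intro h hh β hβ
    obtain ⟨x, hx⟩ := B.mem_HH.1 hh
    rw [hx β]
    exact B.F_zero x hβ
  unit := by
    intro h hh β
    obtain ⟨x, hx⟩ := B.mem_HH.1 hh
    have h1 := B.Ψ01 x β
    rw [← B.cast_F, ← hx β] at h1
    exact ⟨by exact_mod_cast h1.1, by exact_mod_cast h1.2⟩
  zero := by rw [B.hull_HH]; exact B.zero_Y
  trunc := by
    intro h hh γ
    obtain ⟨x, hx⟩ := B.mem_HH.1 hh
    have h1 : toR h = B.Ψ x := by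
      funext β
      rw [toR, hx β, B.cast_F]
    rw [B.hull_HH, h1]
    exact B.trunc_Ψ x γ
  one := by
    intro β hβ
    rw [B.hull_HH]
    obtain ⟨k, hk, i, rfl⟩ := B.mem_Dq.1 hβ
    have hmem : B.e k i ∈ (B.c k).D := by rw [B.hD k]; simp
    obtain ⟨v, hv, h1⟩ := (B.c k).one_X hmem
    rw [← B.res_Y hk] at hv
    obtain ⟨w, hw, rfl⟩ := hv
    refine ⟨w, hw, ?_⟩
    rwa [res_mem (by exact_mod_cast hmem)] at h1

theorem q_X : B.q.X = B.Y := B.hull_HH

theorem q_le {k : ℕ} (hk : k ≤ B.M) : B.q ≤ B.c k := by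
  refine ⟨?_, ?_⟩
  · rw [B.hD k]
    intro β hβ
    obtain ⟨i, _, rfl⟩ := Finset.mem_image.1 hβ
    exact B.e_mem_Dq hk i
  · rw [B.q_X]
    exact B.res_Y hk

end Blk

end

end Pool.Agent.W645.CP
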