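import Mathlib

set_option autoImplicit false
set_option linter.unusedSectionVars false

/-! # A finite net for decreasing sequences -/

namespace Pool.Agent.W645.CP

theorem exists_net (n n0 N : ℕ) (hN : 0 < N) : ∃ S : Finset (Fin n → ℚ),
    (∀ σ ∈ S, Antitone σ ∧ (∀ i, 0 ≤ σ i ∧ σ i ≤ 1) ∧ ∀ i : Fin n, (i : ℕ) < n0 → σ i = 1) ∧
    ∀ τ : Fin n → ℝ, (∀ i j : Fin n, n0 ≤ (i : ℕ) → i ≤ j → τ j ≤ τ i) →
      (∀ i : Fin n, n0 ≤ (i : ℕ) → 0 ≤ τ i ∧ τ i ≤ 1) →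
      ∃ σ ∈ S, ∀ i : Fin n, n0 ≤ (i : ℕ) → |((σ i : ℚ) : ℝ) - τ i| ≤ 1 / N := by
  classical
  have hNq : (0 : ℚ) < N := by exact_mod_cast hN
  have hNr : (0 : ℝ) < N := by exact_mod_cast hN
  let f : (Fin n → Fin (N + 1)) → Fin n → ℚ := fun s i =>
    if (i : ℕ) < n0 then 1 else ((s i : ℕ) : ℚ) / N
  refine ⟨(Finset.univ.image f).filter Antitone, ?_, ?_⟩
  · intro σ hσ
    rw [Finset.mem_filter, Finset.mem_image] at hσ
    obtain ⟨⟨s, _, rfl⟩, ha⟩ := hσ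
    refine ⟨ha, fun i => ?_, fun i hi => by simp [f, hi]⟩
    by_cases hi : (i : ℕ) < n0
    · simp [f, hi]
    · simp only [f, hi, if_false]
      refine ⟨by positivity, ?_⟩
      rw [div_le_one hNq]
      exact_mod_cast Nat.lt_succ_iff.1 (s i).2
  · intro τ hanti h01
    have hfl : ∀ i : Fin n, n0 ≤ (i : ℕ) → ⌊(N : ℝ) * τ i⌋₊ < N + 1 := by
      intro i hi
      have h1 := h01 i hi
      rw [Nat.lt_succ_iff]
      apply Nat.floor_le_of_le
      nlinarith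
    let s : Fin n → Fin (N + 1) := fun i =>
      if h : n0 ≤ (i : ℕ) then ⟨⌊(N : ℝ) * τ i⌋₊, hfl i h⟩ else 0
    refine ⟨f s, ?_, ?_⟩
    · rw [Finset.mem_filter]
      refine ⟨Finset.mem_image_of_mem _ (Finset.mem_univ _), ?_⟩
      intro i j hij
      by_cases hi : (i : ℕ) < n0
      · by_cases hj : (j : ℕ) < n0
        · simp [f, hi, hj]
        · simp only [f, hi, hj, if_true, if_false]
          rw [div_le_one hNq]
          exact_mod_cast Nat.lt_succ_iff.1 (s j).2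
      · have hij' : (i : ℕ) ≤ j := hij
        have hj : ¬ (j : ℕ) < n0 := by omega
        have hi' : n0 ≤ (i : ℕ) := by omega
        have hj' : n0 ≤ (j : ℕ) := by omega
        simp only [f, hi, hj, if_false, s, hi', hj', dif_pos]
        have h1 : ⌊(N : ℝ) * τ j⌋₊ ≤ ⌊(N : ℝ) * τ i⌋₊ :=
          Nat.floor_mono (mul_le_mul_of_nonneg_left (hanti i j hi' hij) hNr.le)
        have h2 : ((⌊(N : ℝ) * τ j⌋₊ : ℕ) : ℚ) ≤ (⌊(N : ℝ) * τ i⌋₊ : ℕ) := by exact_mod_cast h1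
        gcongr
    · intro i hi
      have hi2 : ¬ (i : ℕ) < n0 := by omega
      simp only [f, hi2, if_false, s, hi, dif_pos]
      have h0 : 0 ≤ (N : ℝ) * τ i := mul_nonneg hNr.le (h01 i hi).1
      have h1 := Nat.floor_le h0
      have h2 := Nat.lt_floor_add_one ((N : ℝ) * τ i)
      push_cast
      rw [abs_sub_le_iff]
      have e1 : ((⌊(N : ℝ) * τ i⌋₊ : ℝ)) / N - τ i = ((⌊(N : ℝ) * τ i⌋₊ : ℝ) - N * τ i) / N := by
        field_simp
      have e2 : τ i - ((⌊(N : ℝ) * τ i⌋₊ : ℝ)) / N = (N * τ i - (⌊(N : ℝ) * τ i⌋₊ : ℝ)) / N := by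
        field_simp
      rw [e1, e2]
      constructor
      · gcongr; linarith
      · gcongr; linarith

end Pool.Agent.W645.CP
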