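import Pool.Agent.W645.CP.Blocks
import Pool.Agent.W645.CP.Net

set_option autoImplicit false
set_option linter.unusedSectionVars false

/-!
# Each point of the amalgam looks, on the last block, like on some other block
-/

open Set

namespace Pool.Agent.W645.CP

namespace Blk

variable {ι : Type} [LinearOrder ι] (B : Blk ι) [NoMaxOrder ι] [Nonempty ι]

theorem exists_weights {y : ι → ℝ} (hy : y ∈ B.Y) : ∃ m : B.Idx → ℝ, (∀ x, 0 ≤ m x) ∧
    ∑ x, m x = 1 ∧ ∀ β, y β = ∑ x, m x * B.Ψ x β := by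
  classical
  have h : B.Y ⊆ {y | ∃ m : B.Idx → ℝ, (∀ x, 0 ≤ m x) ∧
    ∑ x, m x = 1 ∧ ∀ β, y β = ∑ x, m x * B.Ψ x β} := by
    refine convexHull_min ?_ ?_
    · rintro _ ⟨x, rfl⟩
      refine ⟨Pi.single x 1, fun z => ?_, ?_, fun β => ?_⟩
      · by_cases h : z = x
        · subst h; simp
        · simp [h]
      · simp
      · rw [Finset.sum_eq_single x]
        · simp
        · intro z _ h; simp [h]
        · intro h; exact absurd (Finset.mem_univ _) h
    · rintro u ⟨m, h1, h2, h3⟩ w ⟨m', h1', h2', h3'⟩ a b ha hb hab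
      refine ⟨fun x => a * m x + b * m' x, fun x => ?_, ?_, fun β => ?_⟩
      · exact add_nonneg (mul_nonneg ha (h1 x)) (mul_nonneg hb (h1' x))
      · rw [Finset.sum_add_distrib, ← Finset.mul_sum, ← Finset.mul_sum, h2, h2']
        linarith
      · simp only [Pi.add_apply, Pi.smul_apply, smul_eq_mul, h3 β, h3' β, Finset.mul_sum]
        rw [← Finset.sum_add_distrib]
        exact Finset.sum_congr rfl fun x _ => by ring
  exact h hy

variable (m : B.Idx → ℝ)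

/-- the mass of the vectors cut off above `β` -/
noncomputable def μ (g : ↥B.t) (β : ι) : ℝ :=
  ∑ γ : ↥B.Γ, m (Sum.inl (g, γ)) * (if β < γ.1 then 1 else 0)

/-- the mass of the vertices of the block `k` -/
noncomputable def xk (k : ℕ) : ℝ :=
  if h : k < B.M then ∑ g : ↥B.t, m (Sum.inr (g, ⟨k, h⟩)) else 0

variable {m} (hm : ∀ x, 0 ≤ m x)

include hm in
theorem μ_nonneg (g : ↥B.t) (β : ι) : 0 ≤ B.μ m g β := by
  refine Finset.sum_nonneg fun γ _ => mul_nonneg (hm _) ?_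
  split_ifs
  · exact zero_le_one
  · exact le_rfl

include hm in
theorem μ_anti (g : ↥B.t) {β β' : ι} (h : β ≤ β') : B.μ m g β' ≤ B.μ m g β := by
  refine Finset.sum_le_sum fun γ _ => mul_le_mul_of_nonneg_left ?_ (hm _)
  split_ifs with h1 h2
  · exact le_rfl
  · exact absurd (lt_of_le_of_lt h h1) h2
  · exact zero_le_one
  · exact le_rfl

include hm in
theorem μ_le (g : ↥B.t) (β : ι) : B.μ m g β ≤ ∑ γ : ↥B.Γ, m (Sum.inl (g, γ)) := by
  refine Finset.sum_le_sum fun γ _ => ?_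
  split_ifs
  · simp
  · simpa using hm _

include hm in
theorem xk_nonneg (k : ℕ) : 0 ≤ B.xk m k := by
  rw [xk]
  split_ifs
  · exact Finset.sum_nonneg fun g _ => hm _
  · exact le_rfl

theorem sum_xk : ∑ k ∈ Finset.range B.M, B.xk m k = ∑ x : ↥B.t × Fin B.M, m (Sum.inr x) := by
  rw [Fintype.sum_prod_type_right, Finset.sum_range]
  refine Finset.sum_congr rfl fun k _ => ?_
  rw [xk, dif_pos k.2]

variable {y : ι → ℝ} (hy : ∀ β, y β = ∑ x, m x * B.Ψ x β)

include hy in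
theorem eval (β : ι) : y β = ∑ g : ↥B.t, B.μ m g β * B.hatR g.1 β +
    ∑ g : ↥B.t, ∑ l : Fin B.M, m (Sum.inr (g, l)) * place (B.e l) (castT g.1) β := by
  rw [hy β, Fintype.sum_sum_type, Fintype.sum_prod_type, Fintype.sum_prod_type]
  congr 1
  refine Finset.sum_congr rfl fun g _ => ?_
  rw [μ, Finset.sum_mul]
  refine Finset.sum_congr rfl fun γ _ => ?_
  simp only [Ψ, res_apply, Set.indicator_apply, Set.mem_Iio]
  split_ifs <;> ring

include hy in
theorem eval_block {k : ℕ} (hk : k < B.M) {i : Fin B.n} (hi : B.n0 ≤ (i : ℕ)) :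
    y (B.e k i) = ∑ g : ↥B.t, B.μ m g (B.e k i) * ((B.σ k g.1 i : ℝ) * (g.1 i : ℝ)) +
      ∑ g : ↥B.t, m (Sum.inr (g, ⟨k, hk⟩)) * (g.1 i : ℝ) := by
  rw [B.eval hy]
  congr 1
  · exact Finset.sum_congr rfl fun g _ => by rw [B.hatR_apply _ hk.le]
  · refine Finset.sum_congr rfl fun g _ => ?_
    rw [Finset.sum_eq_single (⟨k, hk⟩ : Fin B.M)]
    · rw [place_apply (B.mono k).injective]; rfl
    · intro l _ hl
      rw [place_zero, mul_zero]
      intro j hj
      obtain ⟨rfl, h | h⟩ := B.eq_iff hj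
      · exact hl (Fin.ext h)
      · omega
    · intro h; exact absurd (Finset.mem_univ _) h

include hy in
theorem eval_last {i : Fin B.n} (hi : B.n0 ≤ (i : ℕ)) :
    y (B.e B.M i) = ∑ g : ↥B.t, B.μ m g (B.e B.M i) * (g.1 i : ℝ) := by
  rw [B.eval hy]
  have h2 : ∑ g : ↥B.t, ∑ l : Fin B.M, m (Sum.inr (g, l)) *
      place (B.e l) (castT g.1) (B.e B.M i) = 0 := by
    refine Finset.sum_eq_zero fun g _ => Finset.sum_eq_zero fun l _ => ?_
    rw [place_zero, mul_zero]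
    intro j hj
    obtain ⟨rfl, h | h⟩ := B.eq_iff hj
    · exact absurd h l.2.ne
    · omega
  rw [h2, add_zero]
  refine Finset.sum_congr rfl fun g _ => ?_
  rw [B.hatR_apply _ le_rfl, B.σM]; simp

include hm hy in
theorem error_bound {k : ℕ} (hk : k < B.M) {i : Fin B.n} (hi : B.n0 ≤ (i : ℕ))
    (V d : ↥B.t → ℝ) (hV : ∀ g, V g ≤ B.μ m g (B.e k i)) (hd : ∀ g, B.μ m g (B.e k i) ≤ V g + d g)
    (δ : ℝ) (hσ : ∀ g : ↥B.t, |V g * (B.σ k g.1 i : ℝ) - B.μ m g (B.e B.M i)| ≤ V g * δ) :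
    |y (B.e k i) - y (B.e B.M i)| ≤ ∑ g, d g + (∑ g, V g) * δ + B.xk m k := by
  rw [B.eval_block hy hk hi, B.eval_last hy hi]
  have e1 : ∑ g : ↥B.t, B.μ m g (B.e k i) * ((B.σ k g.1 i : ℝ) * (g.1 i : ℝ)) +
      ∑ g : ↥B.t, m (Sum.inr (g, ⟨k, hk⟩)) * (g.1 i : ℝ) -
      ∑ g : ↥B.t, B.μ m g (B.e B.M i) * (g.1 i : ℝ) =
      ∑ g : ↥B.t, (((B.μ m g (B.e k i) - V g) * (B.σ k g.1 i : ℝ) +
        (V g * (B.σ k g.1 i : ℝ) - B.μ m g (B.e B.M i))) * (g.1 i : ℝ) +
        m (Sum.inr (g, ⟨k, hk⟩)) * (g.1 i : ℝ)) := by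
    rw [← Finset.sum_add_distrib, ← Finset.sum_sub_distrib]
    exact Finset.sum_congr rfl fun g _ => by ring
  rw [e1]
  refine (Finset.abs_sum_le_sum_abs _ _).trans ?_
  have e2 : ∑ g, d g + (∑ g, V g) * δ + B.xk m k =
      ∑ g : ↥B.t, (d g + V g * δ + m (Sum.inr (g, ⟨k, hk⟩))) := by
    rw [Finset.sum_add_distrib, Finset.sum_add_distrib, xk, dif_pos hk, Finset.sum_mul]
  rw [e2]
  refine Finset.sum_le_sum fun g _ => ?_
  have h1 := B.t01 g.2 i
  have h2 := B.σ01 k g.1 i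
  have h1' : (0 : ℝ) ≤ (g.1 i : ℝ) ∧ (g.1 i : ℝ) ≤ 1 :=
    ⟨by exact_mod_cast h1.1, by exact_mod_cast h1.2⟩
  have h2' : (0 : ℝ) ≤ (B.σ k g.1 i : ℝ) ∧ (B.σ k g.1 i : ℝ) ≤ 1 :=
    ⟨by exact_mod_cast h2.1, by exact_mod_cast h2.2⟩
  have h3 := hm (Sum.inr (g, ⟨k, hk⟩))
  have h4 := hσ g
  have h5 := hV g
  have h6 := hd g
  have a1 : |(B.μ m g (B.e k i) - V g) * (B.σ k g.1 i : ℝ)| ≤ d g := by
    rw [abs_of_nonneg (mul_nonneg (by linarith) h2'.1)]
    calc (B.μ m g (B.e k i) - V g) * (B.σ k g.1 i : ℝ)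
        ≤ (B.μ m g (B.e k i) - V g) * 1 := mul_le_mul_of_nonneg_left h2'.2 (by linarith)
      _ ≤ d g := by linarith
  have a2 : |((B.μ m g (B.e k i) - V g) * (B.σ k g.1 i : ℝ) +
        (V g * (B.σ k g.1 i : ℝ) - B.μ m g (B.e B.M i))) * (g.1 i : ℝ)| ≤ d g + V g * δ := by
    rw [abs_mul, abs_of_nonneg h1'.1]
    have a3 := (abs_add_le ((B.μ m g (B.e k i) - V g) * (B.σ k g.1 i : ℝ))
      (V g * (B.σ k g.1 i : ℝ) - B.μ m g (B.e B.M i))).trans (add_le_add a1 h4)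
    calc _ ≤ (d g + V g * δ) * (g.1 i : ℝ) := mul_le_mul_of_nonneg_right a3 h1'.1
      _ ≤ (d g + V g * δ) * 1 :=
        mul_le_mul_of_nonneg_left h1'.2 ((abs_nonneg _).trans a3)
      _ = _ := mul_one _
  have a4 : |m (Sum.inr (g, ⟨k, hk⟩)) * (g.1 i : ℝ)| ≤ m (Sum.inr (g, ⟨k, hk⟩)) := by
    rw [abs_of_nonneg (mul_nonneg h3 h1'.1)]
    exact mul_le_of_le_one_right h3 h1'.2
  exact (abs_add_le _ _).trans (add_le_add a2 a4)

/-- The main property of the amalgam. -/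
theorem close (G J N : ℕ) (hG : 0 < G) (hJ : 0 < J) (hN : 0 < N) (hM : B.M = G * J)
    (S : Finset (Fin B.n → ℚ))
    (hS : ∀ τ : Fin B.n → ℝ, (∀ i j : Fin B.n, B.n0 ≤ (i : ℕ) → i ≤ j → τ j ≤ τ i) →
      (∀ i : Fin B.n, B.n0 ≤ (i : ℕ) → 0 ≤ τ i ∧ τ i ≤ 1) →
      ∃ σ ∈ S, ∀ i : Fin B.n, B.n0 ≤ (i : ℕ) → |((σ i : ℚ) : ℝ) - τ i| ≤ 1 / N)
    (hpat : ∀ j < J, ∀ s : ↥B.t → Fin B.n → ℚ, (∀ g, s g ∈ S) →
      ∃ k, G * j ≤ k ∧ k < G * (j + 1) ∧ ∀ g : ↥B.t, B.σ k g = s g)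
    (y : ι → ℝ) (hyY : y ∈ B.Y) :
    ∃ k < B.M, ∀ i, |y (B.e k i) - y (B.e B.M i)| ≤ 1 / J + 1 / N := by
  classical
  have hJr : (0 : ℝ) < J := by exact_mod_cast hJ
  have hNr : (0 : ℝ) < N := by exact_mod_cast hN
  by_cases hn : B.n0 < B.n
  swap
  · refine ⟨0, B.hM, fun i => ?_⟩
    have hi : (i : ℕ) < B.n0 := by have := i.2; omega
    rw [B.root 0 B.M i hi, sub_self, abs_zero]
    positivity
  obtain ⟨m, hm, hsum, hy⟩ := B.exists_weights hyY
  let i0 : Fin B.n := ⟨B.n0, hn⟩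
  let V : ℕ → ↥B.t → ℝ := fun j g => B.μ m g (B.e (G * j) i0)
  let P : ℕ → ℝ := fun j => ∑ g, V j g - ∑ k ∈ Finset.range (G * j), B.xk m k
  have hVanti : ∀ j j' g, j ≤ j' → V j' g ≤ V j g := by
    intro j j' g h
    refine B.μ_anti hm g ?_
    rcases eq_or_lt_of_le h with h | h
    · rw [h]
    · exact (B.blk (G * j) (G * j') i0 i0 (Nat.mul_lt_mul_of_pos_left h hG) le_rfl).le
  have hP0 : P 0 ≤ ∑ x : ↥B.t × ↥B.Γ, m (Sum.inl x) := by
    simp only [P, Nat.mul_zero, Finset.range_zero, Finset.sum_empty, sub_zero]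
    rw [Fintype.sum_prod_type]
    exact Finset.sum_le_sum fun g _ => B.μ_le hm g _
  have hPJ : -∑ x : ↥B.t × Fin B.M, m (Sum.inr x) ≤ P J := by
    simp only [P]
    rw [← B.sum_xk, hM]
    have : 0 ≤ ∑ g, V J g := Finset.sum_nonneg fun g _ => B.μ_nonneg hm g _
    linarith
  have htot : P 0 - P J ≤ 1 := by
    rw [Fintype.sum_sum_type] at hsum
    linarith
  obtain ⟨j, hj, hjle⟩ : ∃ j < J, P j - P (j + 1) ≤ 1 / J := by
    by_contra hcon
    push Not at hcon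
    have h1 : ∑ j ∈ Finset.range J, (1 / J : ℝ) < ∑ j ∈ Finset.range J, (P j - P (j + 1)) :=
      Finset.sum_lt_sum_of_nonempty (Finset.nonempty_range_iff.2 hJ.ne')
        fun j hj => hcon j (Finset.mem_range.1 hj)
    rw [Finset.sum_range_sub', Finset.sum_const, Finset.card_range, nsmul_eq_mul,
      mul_one_div_cancel hJr.ne'] at h1
    linarith
  -- the pattern
  have hpat' : ∀ g : ↥B.t, ∃ σ ∈ S, ∀ i : Fin B.n, B.n0 ≤ (i : ℕ) →
      |((σ i : ℚ) : ℝ) - B.μ m g (B.e B.M i) / V (j + 1) g| ≤ 1 / N := by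
    intro g
    refine hS (fun i => B.μ m g (B.e B.M i) / V (j + 1) g) ?_ ?_
    · intro i i' _ hii'
      exact div_le_div_of_nonneg_right (B.μ_anti hm g ((B.mono B.M).monotone hii'))
        (B.μ_nonneg hm g _)
    · intro i hi
      refine ⟨div_nonneg (B.μ_nonneg hm g _) (B.μ_nonneg hm g _), ?_⟩
      refine div_le_one_of_le₀ ?_ (B.μ_nonneg hm g _)
      refine B.μ_anti hm g ?_
      have h1 : G * (j + 1) ≤ B.M := by
        rw [hM]; exact Nat.mul_le_mul_left G hj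
      rcases eq_or_lt_of_le h1 with h | h
      · rw [h]
        exact (B.mono B.M).monotone hi
      · exact (B.blk _ _ _ _ h hi).le
  choose s hsS hs using hpat'
  obtain ⟨k, hk1, hk2, hk3⟩ := hpat j hj s hsS
  have hkM : k < B.M := by
    rw [hM]
    exact lt_of_lt_of_le hk2 (Nat.mul_le_mul_left G hj)
  refine ⟨k, hkM, fun i => ?_⟩
  by_cases hi : (i : ℕ) < B.n0
  · rw [B.root k B.M i hi, sub_self, abs_zero]
    positivity
  rw [not_lt] at hi
  have hlow : ∀ g, V (j + 1) g ≤ B.μ m g (B.e k i) := fun g =>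
    B.μ_anti hm g (B.blk _ _ _ _ hk2 le_rfl).le
  have hup : ∀ g, B.μ m g (B.e k i) ≤ V j g := by
    intro g
    refine B.μ_anti hm g ?_
    rcases eq_or_lt_of_le hk1 with h | h
    · rw [h]; exact (B.mono k).monotone hi
    · exact (B.blk _ _ _ _ h hi).le
  have h1 := B.error_bound hm hy hkM hi (V (j + 1)) (fun g => V j g - V (j + 1) g) hlow
    (fun g => by simpa using hup g) (1 / N) (by
      intro g
      rw [hk3 g]
      have h2 := hs g i hi
      have h3 : 0 ≤ V (j + 1) g := B.μ_nonneg hm g _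
      rcases eq_or_lt_of_le h3 with h4 | h4
      · have h5 : B.μ m g (B.e B.M i) = 0 := by
          have h6 : B.μ m g (B.e B.M i) ≤ V (j + 1) g := by
            refine B.μ_anti hm g ?_
            have h1 : G * (j + 1) ≤ B.M := by
              rw [hM]; exact Nat.mul_le_mul_left G hj
            rcases eq_or_lt_of_le h1 with h | h
            · rw [h]
              exact (B.mono B.M).monotone hi
            · exact (B.blk _ _ _ _ h hi).le
          exact le_antisymm (h6.trans h4.symm.le) (B.μ_nonneg hm g _)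
        rw [h5, ← h4]; simp
      · have e : V (j + 1) g * ((s g i : ℚ) : ℝ) - B.μ m g (B.e B.M i) =
            V (j + 1) g * (((s g i : ℚ) : ℝ) - B.μ m g (B.e B.M i) / V (j + 1) g) := by
          field_simp
        rw [e, abs_mul, abs_of_pos h4]
        exact mul_le_mul_of_nonneg_left h2 h4.le)
  refine h1.trans ?_
  have h5 : ∑ g, V (j + 1) g ≤ 1 := by
    have h6 : ∑ g, V (j + 1) g ≤ ∑ x : ↥B.t × ↥B.Γ, m (Sum.inl x) := by
      rw [Fintype.sum_prod_type]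
      exact Finset.sum_le_sum fun g _ => B.μ_le hm g _
    have h7 : 0 ≤ ∑ x : ↥B.t × Fin B.M, m (Sum.inr x) := Finset.sum_nonneg fun x _ => hm _
    rw [Fintype.sum_sum_type] at hsum
    linarith
  have h8 : ∑ k' ∈ Finset.range (G * j), B.xk m k' + B.xk m k ≤
      ∑ k' ∈ Finset.range (G * (j + 1)), B.xk m k' := by
    have hkn : k ∉ Finset.range (G * j) := by
      rw [Finset.mem_range]; omega
    rw [add_comm, ← Finset.sum_insert hkn]
    refine Finset.sum_le_sum_of_subset_of_nonneg ?_ fun k' _ _ => B.xk_nonneg hm k'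
    intro k' hk'
    rw [Finset.mem_insert, Finset.mem_range] at hk'
    rw [Finset.mem_range]
    rcases hk' with rfl | h
    · exact hk2
    · exact lt_of_lt_of_le h (Nat.mul_le_mul_left G (Nat.le_succ j))
  have h9 : ∑ g, (V j g - V (j + 1) g) + B.xk m k ≤ 1 / J := by
    have e : P j - P (j + 1) = ∑ g, (V j g - V (j + 1) g) +
        (∑ k' ∈ Finset.range (G * (j + 1)), B.xk m k' -
          ∑ k' ∈ Finset.range (G * j), B.xk m k') := by
      simp only [P, Finset.sum_sub_distrib]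
      ring
    linarith
  have h10 : (∑ g, V (j + 1) g) * (1 / N : ℝ) ≤ 1 / N := by
    have : (0 : ℝ) ≤ 1 / N := by positivity
    nlinarith
  linarith

end Blk

end Pool.Agent.W645.CP
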