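import Pool.Agent.W645.CP.Basic
import Pool.Agent.W684.FM.Defs

set_option autoImplicit false
set_option linter.unusedSectionVars false

/-!
# The combinatorial principle, and the sentence of the forcing language which expresses it
-/

open Set Cardinal

namespace Pool.Agent.W645.CP

open Pool.Agent.Helper669.Forcing

/-- The well-ordered set `ω₁` of the countable ordinals. -/
abbrev Om : Type := (ℵ₁ : Cardinal.{0}).ord.ToType

/-- The polytope point `y` looks on `p` up to `ε` like on `p'`. -/
def Close (y : Om → ℝ) (p p' : Cnd Om) (ε : ℝ) : Prop :=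
  ∃ (n : ℕ) (h : p.D.card = n) (h' : p'.D.card = n),
    ∀ i, |y (p.D.orderEmbOfFin h i) - y (p'.D.orderEmbOfFin h' i)| ≤ ε

/-- `q` extends `p0` and all the members of `L`, and every point `y` of its polytope looks on
`p0` up to `1 / (n + 1)` like on some member of `L`. -/
def Mimics (q p0 : Cnd Om) (L : Finset (Cnd Om)) (n : ℕ) : Prop :=
  q ≤ p0 ∧ (∀ p ∈ L, q ≤ p) ∧ ∀ y ∈ q.X, ∃ p ∈ L, Close y p p0 (1 / ((n : ℝ) + 1))

/-- The principle: there is a directed set `G` of conditions, with conditions containing each
coordinate, such that for each relation `R` between countable ordinals and members of `G` with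
unbounded domain and for each `n` there are `β`, a condition `p0` with `R β p0`, a finite set `L`
of conditions `p` with `R α p` for some `α < β`, and `q ∈ G` with `Mimics q p0 L n`. -/
def GenericSystem : Prop :=
  ∃ G : Cnd Om → Prop, (∀ p q, G p → G q → ∃ r, G r ∧ r ≤ p ∧ r ≤ q) ∧
    (∀ α, ∃ p, G p ∧ α ∈ p.D) ∧
    ∀ R : Om → Cnd Om → Prop, (∀ γ, ∃ α p, γ < α ∧ R α p) → (∀ α p, R α p → G p) →
      ∀ n : ℕ, ∃ (β : Om) (p0 : Cnd Om) (L : Finset (Cnd Om)) (q : Cnd Om),
        R β p0 ∧ G q ∧ (∀ p ∈ L, ∃ α, α < β ∧ R α p) ∧ Mimics q p0 L n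

/-- The conditions which force `GenericSystem`: each quantifier and connective of
`GenericSystem` is replaced by the one of the forcing language, and sets by names. -/
def GenericSystemHolds (P : Type) [Preorder P] : Set P :=
  fex fun G : Cnd Om → Set P =>
    fand (fall fun p => fall fun q => fimp (fand (meets (G p)) (meets (G q)))
        (fex fun r => fand (meets (G r)) (fground (r ≤ p ∧ r ≤ q))))
      (fand (fall fun α => fex fun p => fand (meets (G p)) (fground (α ∈ p.D)))
        (fall fun R : Om → Cnd Om → Set P => fimp
          (fand (fall fun γ => fex fun α => fex fun p => fand (fground (γ < α)) (meets (R α p)))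
            (fall fun α => fall fun p => fimp (meets (R α p)) (meets (G p))))
          (fall fun n : ℕ => fex fun β => fex fun p0 => fex fun L : Finset (Cnd Om) =>
            fex fun q => fand (meets (R β p0)) (fand (meets (G q))
              (fand (fall fun p => fall fun _ : p ∈ L =>
                  fex fun α => fand (fground (α < β)) (meets (R α p)))
                (fground (Mimics q p0 L n)))))))

/-- the countable chain condition -/
def CCC (P : Type) [Preorder P] : Prop :=
  ∀ A : Set P, (∀ p ∈ A, ∀ q ∈ A, p ≠ q → ¬ ∃ r, r ≤ p ∧ r ≤ q) → A.Countable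

end Pool.Agent.W645.CP
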