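import Pool.Agent.W645.CP.Thin

set_option autoImplicit false
set_option linter.unusedSectionVars false

/-!
# The set of conditions has the countable chain condition and forces the principle
-/

open Set Cardinal

namespace Pool.Agent.W645.CP

open Pool.Agent.Helper669.Forcing
open Pool.Agent.W684.FM (OmegaOnePreserved)

section

variable {ι : Type} [LinearOrder ι]

/-- the condition `p` with the coordinate `α` added -/
theorem Cnd.add (p : Cnd ι) (α : ι) : ∃ q : Cnd ι, q ≤ p ∧ α ∈ q.D := by
  classical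
  by_cases hα : α ∈ p.D
  · exact ⟨p, le_rfl, hα⟩
  let u : ι →₀ ℚ := Finsupp.single α 1
  have hu : toR u = fun β => if β = α then 1 else 0 := by
    funext β
    by_cases h : β = α
    · subst h; simp [toR, u]
    · simp [toR, u, h]
  have hsub : convexHull ℝ (toR '' (p.H : Set (ι →₀ ℚ))) ⊆
      convexHull ℝ (toR '' ((insert u p.H : Finset (ι →₀ ℚ)) : Set (ι →₀ ℚ))) := by
    refine convexHull_mono (Set.image_mono ?_)
    rw [Finset.coe_insert]; exact Set.subset_insert _ _
  have hmem : toR u ∈ convexHull ℝ (toR '' ((insert u p.H : Finset (ι →₀ ℚ)) : Set (ι →₀ ℚ))) :=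
    subset_convexHull ℝ _ ⟨u, by simp, rfl⟩
  let q : Cnd ι :=
    { D := insert α p.D
      H := insert u p.H
      supp := by
        intro h hh β hβ
        rw [Finset.mem_insert, not_or] at hβ
        rcases Finset.mem_insert.1 hh with rfl | hh
        · simp [u, Ne.symm hβ.1]
        · exact p.supp h hh β hβ.2
      unit := by
        intro h hh β
        rcases Finset.mem_insert.1 hh with rfl | hh
        · by_cases hb : α = β
          · simp [u, hb]
          · simp [u, hb]
        · exact p.unit h hh β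
      zero := hsub p.zero
      trunc := by
        intro h hh γ
        rcases Finset.mem_insert.1 hh with rfl | hh
        · by_cases hb : α < γ
          · have : res (Iio γ) (toR u) = toR u := by
              refine res_eq_self fun β hβ => ?_
              rw [hu]
              have : β ≠ α := by rintro rfl; exact hβ hb
              simp [this]
            rw [this]; exact hmem
          · have : res (Iio γ) (toR u) = 0 := by
              funext β
              by_cases hβ : β < γ
              · rw [res_mem (show β ∈ Iio γ from hβ), hu]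
                have : β ≠ α := by rintro rfl; exact hb hβ
                simp [this]
              · rw [res_not_mem (show β ∉ Iio γ from hβ)]; rfl
            rw [this]; exact hsub p.zero
        · exact hsub (p.trunc h hh γ)
      one := by
        intro β hβ
        rcases Finset.mem_insert.1 hβ with rfl | hβ
        · exact ⟨_, hmem, by rw [hu]; simp⟩
        · obtain ⟨v, hv, h1⟩ := p.one β hβ
          exact ⟨v, hsub hv, h1⟩ }
  refine ⟨q, ⟨Finset.subset_insert _ _, ?_⟩, Finset.mem_insert_self _ _⟩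
  apply Set.Subset.antisymm
  · have h1 : q.X ⊆ (res (p.D : Set ι)) ⁻¹' p.X := by
      refine convexHull_min ?_ (p.convex_X.linear_preimage _)
      rintro _ ⟨h, hh, rfl⟩
      have hh' : h ∈ insert u p.H := hh
      rcases Finset.mem_insert.1 hh' with rfl | hh'
      · have : res (p.D : Set ι) (toR u) = 0 := by
          funext β
          by_cases hβ : β ∈ (p.D : Set ι)
          · rw [res_mem hβ, hu]
            have : β ≠ α := by rintro rfl; exact hα hβ
            simp [this]
          · rw [res_not_mem hβ]; rfl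
        change res (p.D : Set ι) (toR u) ∈ p.X
        rw [this]; exact p.zero_mem
      · have h2 : toR h ∈ p.X := subset_convexHull ℝ _ ⟨h, hh', rfl⟩
        change res (p.D : Set ι) (toR h) ∈ p.X
        rw [res_eq_self fun β hβ => p.supp_X h2 (by exact_mod_cast hβ)]
        exact h2
    rintro _ ⟨v, hv, rfl⟩
    exact h1 hv
  · intro v hv
    exact ⟨v, hsub hv, res_eq_self fun β hβ => p.supp_X hv (by exact_mod_cast hβ)⟩

end

theorem ccc : CCC (Cnd Om) := by
  intro A hA
  by_contra hcount
  have h1 : #Om ≤ #A := by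
    have h2 : ¬ #A ≤ ℵ₀ := fun h => hcount (mk_le_aleph0_iff.1 h)
    have h3 : #Om = ℵ₁ := by simp
    have h4 : ℵ₁ ≤ Order.succ (ℵ₀ : Cardinal.{0}) := succ_aleph0.ge
    exact h3.le.trans (h4.trans (Order.succ_le_of_lt (not_le.1 h2)))
  obtain ⟨f⟩ := h1
  choose a ha using fun γ : Om => exists_gt γ
  obtain ⟨M, hM, s, hs, q, hq, _⟩ := find (fun γ => (f γ).1) (fun γ => (f γ).1) (fun _ => le_rfl)
    a ha 1 one_pos
  have hne : s 0 ≠ s M := fun h => (hs 0 M hM).ne (by rw [h])
  exact hA _ (f (s 0)).2 _ (f (s M)).2 (fun h => hne (f.injective (Subtype.ext h)))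
    ⟨q, hq 0 (Nat.zero_le _), hq M le_rfl⟩

theorem omegaOnePreserved_of_ccc {P : Type} [Preorder P] (h : CCC P) (p : P) :
    p ∈ OmegaOnePreserved P := by
  classical
  intro q _ hq
  obtain ⟨r, _, R, ⟨⟨_, hfun⟩, honto⟩⟩ := mem_fex.1 hq q le_rfl
  have hV : ∀ n : ℕ, {b : Om | ∃ s ≤ r, s ∈ meets (R n b)}.Countable := by
    intro n
    have hex : ∀ b : {b : Om | ∃ s ≤ r, s ∈ meets (R n b)}, ∃ s ≤ r, s ∈ meets (R n b) :=
      fun b => b.2
    choose s hs hs' using hex
    have hcomp : ∀ b b', (∃ t, t ≤ s b ∧ t ≤ s b') → b = b' := by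
      rintro b b' ⟨t, h1, h2⟩
      have h3 := hfun n b b'
      obtain ⟨_, _, h4⟩ := mem_fimp.1 h3 t (h1.trans (hs b))
        ⟨down_meets _ _ (hs' b) _ h1, down_meets _ _ (hs' b') _ h2⟩
      exact Subtype.ext h4
    have hA : (range s).Countable := by
      refine h _ ?_
      rintro _ ⟨b, rfl⟩ _ ⟨b', rfl⟩ hne hc
      exact hne (congrArg s (hcomp b b' hc))
    have hinj : Function.Injective s := fun b b' hb =>
      hcomp b b' ⟨s b, le_rfl, hb.le⟩
    have : Countable (range s) := hA
    have h5 : Countable {b : Om | ∃ s ≤ r, s ∈ meets (R n b)} :=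
      (Function.Injective.countable (f := fun b => (⟨s b, b, rfl⟩ : range s))
        fun b b' hb => hinj (congrArg Subtype.val hb))
    exact h5
  obtain ⟨b, hb⟩ := countable_bdd (countable_iUnion hV)
  obtain ⟨t, ht, n, hn⟩ := mem_fex.1 (honto b) r le_rfl
  exact lt_irrefl b (hb b (mem_iUnion.2 ⟨n, t, ht, hn⟩))

section

variable {P : Type} [Preorder P]

theorem fex_intro {ι : Sort*} {φ : ι → Set P} (hφ : ∀ i, Down (φ i)) {p : P} (i : ι)
    (h : p ∈ φ i) : p ∈ fex φ :=
  mem_fex.2 fun q hq => ⟨q, le_rfl, i, hφ i _ h _ hq⟩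

end

theorem forced (x0 : Cnd Om) : x0 ∈ GenericSystemHolds (Cnd Om) := by
  classical
  refine mem_fex.2 fun x _ => ⟨x, le_rfl, fun p => {p}, ?_, ?_, ?_⟩
  · intro p q
    refine mem_fimp.2 fun y _ hy => ?_
    obtain ⟨r1, hr1, _, rfl, h1⟩ := hy.1 y le_rfl
    obtain ⟨r2, hr2, _, rfl, h2⟩ := hy.2 r1 hr1
    refine ⟨r2, hr2.trans hr1, mem_fex.2 fun z hz => ⟨z, le_rfl, z, ?_, ?_⟩⟩
    · exact fun w hw => ⟨w, le_rfl, z, rfl, hw⟩
    · exact ⟨hz.trans (hr2.trans h1), hz.trans h2⟩
  · intro α
    refine mem_fex.2 fun y _ => ?_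
    obtain ⟨q, hq, hα⟩ := y.add α
    exact ⟨q, hq, q, fun w hw => ⟨w, le_rfl, q, rfl, hw⟩, hα⟩
  · intro R
    refine mem_fimp.2 fun y _ hy => ⟨y, le_rfl, fun n => mem_fex.2 fun u hu => ?_⟩
    have hstep : ∀ γ : Om, ∃ (r p : Cnd Om) (α : Om), r ≤ u ∧ r ≤ p ∧ γ < α ∧
        r ∈ meets (R α p) := by
      intro γ
      obtain ⟨w, hw, α, h1⟩ := mem_fex.1 (hy.1 γ) u hu
      obtain ⟨w', hw', p, h2, h3⟩ := mem_fex.1 h1 w le_rfl
      obtain ⟨w2, hw2, h4⟩ := mem_fimp.1 (hy.2 α p) w' (hw'.trans (hw.trans hu)) h3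
      obtain ⟨w3, hw3, _, rfl, h5⟩ := h4 w2 le_rfl
      exact ⟨w3, _, α, hw3.trans (hw2.trans (hw'.trans hw)), h5, h2,
        down_meets _ _ h3 _ (hw3.trans hw2)⟩
    choose r p a hru hrp ha hR using hstep
    obtain ⟨M, hM, s, hs, q, hq, hclose⟩ := find r p hrp a ha (1 / ((n : ℝ) + 1)) (by positivity)
    have hdown : ∀ (β : Om) (p0 : Cnd Om) (L : Finset (Cnd Om)) (q' : Cnd Om),
        Down (fand (meets (R β p0)) (fand (meets ({q'} : Set (Cnd Om)))
              (fand (fall fun p => fall fun _ : p ∈ L =>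
                  fex fun α => fand (fground (α < β)) (meets (R α p)))
                (fground (Mimics q' p0 L n))))) := fun β p0 L q' =>
      down_fand (down_meets _) (down_fand (down_meets _) (down_fand
        (down_fall fun _ => down_fall fun _ => down_fex _) (down_fground _)))
    refine ⟨q, (hq 0 (Nat.zero_le _)).trans (hru _), a (s M), ?_⟩
    refine fex_intro (fun _ => down_fex _) (p (s M)) ?_
    refine fex_intro (fun _ => down_fex _) ((Finset.range M).image fun k => p (s k)) ?_
    refine fex_intro (hdown _ _ _) q ⟨?_, ?_, ?_, ?_⟩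
    · exact down_meets _ _ (hR _) _ (hq M le_rfl)
    · exact fun w hw => ⟨w, le_rfl, q, rfl, hw⟩
    · intro p' hp'
      obtain ⟨k, hk, rfl⟩ := Finset.mem_image.1 hp'
      have hkM := Finset.mem_range.1 hk
      refine fex_intro (fun _ => down_fand (down_fground _) (down_meets _)) (a (s k)) ⟨?_, ?_⟩
      · exact hs k M hkM
      · exact down_meets _ _ (hR _) _ (hq k hkM.le)
    · refine ⟨(hq M le_rfl).trans (hrp _), ?_, ?_⟩
      · intro p' hp'
        obtain ⟨k, hk, rfl⟩ := Finset.mem_image.1 hp'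
        exact (hq k (Finset.mem_range.1 hk).le).trans (hrp _)
      · intro v hv
        obtain ⟨k, hk, h⟩ := hclose v hv
        exact ⟨_, Finset.mem_image_of_mem _ (Finset.mem_range.2 hk), h⟩

end Pool.Agent.W645.CP
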