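import Pool.Agent.W645.CP.Amalg
import Pool.Agent.W645.CP.Defs
import Pool.Agent.Helper391.ForceCH

set_option autoImplicit false
set_option linter.unusedSectionVars false

/-!
# Thinning out uncountable families of conditions
-/

open Set Cardinal

namespace Pool.Agent.W645.CP

instance : Nonempty Om := inferInstanceAs (Nonempty Pool.Agent.Helper391.ForceCH.Om)

instance : NoMaxOrder Om := inferInstanceAs (NoMaxOrder Pool.Agent.Helper391.ForceCH.Om)

/-- the set `A ⊆ ω₁` is unbounded -/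
def Unb (A : Set Om) : Prop := ∀ γ : Om, ∃ α ∈ A, γ < α

theorem countable_bdd {C : Set Om} (hC : C.Countable) : ∃ b : Om, ∀ a ∈ C, a < b := by
  rcases C.eq_empty_or_nonempty with h | h
  · exact ⟨Classical.arbitrary Om, by simp [h]⟩
  · obtain ⟨f, rfl⟩ := hC.exists_eq_range h
    obtain ⟨b, hb⟩ := Pool.Agent.Helper391.ForceCH.exists_bound f
    exact ⟨b, by rintro _ ⟨n, rfl⟩; exact hb n⟩

theorem countable_Iic (γ : Om) : (Iic γ).Countable := by
  have h := Pool.Agent.Helper391.ForceCH.countable_Iio γ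
  have h1 : (Iio γ).Countable := Set.countable_coe_iff.1 h
  have : Iic γ = insert γ (Iio γ) := by
    ext x
    simp [le_iff_eq_or_lt]
  rw [this]
  exact h1.insert _

/-- pigeonhole principle -/
theorem pigeon {C : Type} [Countable C] {A : Set Om} (hA : Unb A) (Q : Om → C → Prop)
    (hQ : ∀ γ ∈ A, ∃ c, Q γ c) : ∃ c, Unb {γ ∈ A | Q γ c} := by
  by_contra hcon
  have h1 : ∀ c : C, ∃ b : Om, ∀ α ∈ A, Q α c → α ≤ b := by
    intro c
    have h2 : ¬ Unb {γ ∈ A | Q γ c} := fun h => hcon ⟨c, h⟩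
    unfold Unb at h2
    push Not at h2
    obtain ⟨b, hb⟩ := h2
    exact ⟨b, fun α hα hq => hb α ⟨hα, hq⟩⟩
  choose b hb using h1
  obtain ⟨b', hb'⟩ := countable_bdd (Set.countable_range b)
  obtain ⟨α, hα, hlt⟩ := hA b'
  obtain ⟨c, hc⟩ := hQ α hα
  have h3 := hb c α hα hc
  have h4 := hb' (b c) ⟨c, rfl⟩
  exact absurd (hlt.trans_le h3) (not_lt.2 h4.le)

theorem unb_split {A : Set Om} (hA : Unb A) (Q : Om → Prop) :
    Unb {γ ∈ A | Q γ} ∨ Unb {γ ∈ A | ¬ Q γ} := by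
  obtain ⟨c, hc⟩ := pigeon (C := Bool) hA (fun γ c => c = true ↔ Q γ) (by
    intro γ _
    by_cases h : Q γ
    · exact ⟨true, by simp [h]⟩
    · exact ⟨false, by simp [h]⟩)
  cases c
  · right
    intro γ
    obtain ⟨α, hα, h⟩ := hc γ
    exact ⟨α, ⟨hα.1, by simpa using hα.2⟩, h⟩
  · left
    intro γ
    obtain ⟨α, hα, h⟩ := hc γ
    exact ⟨α, ⟨hα.1, by simpa using hα.2⟩, h⟩

/-- the `Δ`-system lemma for increasing `n`-tuples -/
theorem delta {n : ℕ} (e : Om → Fin n → Om) {A : Set Om} (hA : Unb A) :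
    ∃ n0 ≤ n, ∃ A' ⊆ A, Unb A' ∧
      (∀ α ∈ A', ∀ β ∈ A', ∀ i : Fin n, (i : ℕ) < n0 → e α i = e β i) ∧
      ∀ h : n0 < n, ∀ γ, ∃ α ∈ A', γ < α ∧ γ < e α ⟨n0, h⟩ := by
  classical
  let Pm : ℕ → Prop := fun m => ∃ A' ⊆ A, Unb A' ∧
      (∀ α ∈ A', ∀ β ∈ A', ∀ i : Fin n, (i : ℕ) < m → e α i = e β i)
  have hP0 : Pm 0 := ⟨A, Subset.rfl, hA, fun _ _ _ _ i hi => absurd hi (Nat.not_lt_zero _)⟩
  have hmax := Nat.findGreatest_spec (P := Pm) (Nat.zero_le n) hP0
  set n0 := Nat.findGreatest Pm n with hn0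
  have hle : n0 ≤ n := Nat.findGreatest_le n
  obtain ⟨A', hA'A, hA', hconst⟩ := hmax
  refine ⟨n0, hle, A', hA'A, hA', hconst, ?_⟩
  intro h γ
  rcases unb_split hA' (fun α => e α ⟨n0, h⟩ ≤ γ) with h1 | h1
  · exfalso
    have hc : Countable (Iic γ) := countable_Iic γ
    obtain ⟨c, hc'⟩ := pigeon (C := Iic γ) h1 (fun α c => e α ⟨n0, h⟩ = c.1)
      (fun α hα => ⟨⟨_, hα.2⟩, rfl⟩)
    have hP : Pm (n0 + 1) := by
      refine ⟨_, fun α hα => hA'A hα.1.1, hc', ?_⟩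
      intro α hα β hβ i hi
      rcases Nat.lt_succ_iff_lt_or_eq.1 hi with h2 | h2
      · exact hconst α hα.1.1 β hβ.1.1 i h2
      · have : i = ⟨n0, h⟩ := Fin.ext h2
        rw [this, hα.2, hβ.2]
    have := Nat.le_findGreatest (P := Pm) (n := n) h hP
    omega
  · obtain ⟨α, hα, h2⟩ := h1 γ
    exact ⟨α, hα.1, h2, not_le.1 hα.2⟩

/-- every condition has a type -/
theorem Cnd.exists_type (p : Cnd Om) {n : ℕ} (h : p.D.card = n) :
    ∃ t : Finset (Fin n → ℚ), p.X = convexHull ℝ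
      ((fun g : Fin n → ℚ => place (p.D.orderEmbOfFin h) (castT g)) '' (t : Set _)) := by
  classical
  refine ⟨p.H.image fun h' i => h' (p.D.orderEmbOfFin h i), ?_⟩
  rw [Cnd.X, Finset.coe_image, Set.image_image]
  congr 1
  refine Set.image_congr fun h' hh' => ?_
  funext β
  by_cases hβ : β ∈ p.D
  · have : β ∈ Set.range (p.D.orderEmbOfFin h) := by
      rw [Finset.range_orderEmbOfFin]; exact hβ
    obtain ⟨i, rfl⟩ := this
    rw [place_apply (p.D.orderEmbOfFin h).injective]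
    rfl
  · rw [place_zero]
    · rw [toR, p.supp h' hh' β hβ]; simp
    · intro i hi
      apply hβ
      rw [← hi]; exact Finset.orderEmbOfFin_mem _ _ _

theorem find (r p : Om → Cnd Om) (hrp : ∀ γ, r γ ≤ p γ) (a : Om → Om) (ha : ∀ γ, γ < a γ)
    (ε : ℝ) (hε : 0 < ε) : ∃ M, 0 < M ∧ ∃ s : ℕ → Om, (∀ k l, k < l → a (s k) < a (s l)) ∧
      ∃ q, (∀ k ≤ M, q ≤ r (s k)) ∧
        ∀ y ∈ q.X, ∃ k < M, Close y (p (s k)) (p (s M)) ε := by
  classical
  -- the type
  let C : Type := Σ n : ℕ, Finset (Fin n → ℚ) × Finset (Fin n)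
  obtain ⟨⟨n, t, I⟩, hA⟩ := pigeon (C := C) (A := Set.univ) (fun γ => by
      obtain ⟨b, hb⟩ := exists_gt γ
      exact ⟨b, mem_univ _, hb⟩)
    (fun γ c => ∃ h : (r γ).D.card = c.1, (r γ).X = convexHull ℝ
      ((fun g : Fin c.1 → ℚ => place ((r γ).D.orderEmbOfFin h) (castT g)) '' (c.2.1 : Set _)) ∧
      (p γ).D = c.2.2.image ((r γ).D.orderEmbOfFin h)) (by
    intro γ _
    obtain ⟨t, ht⟩ := (r γ).exists_type rfl
    refine ⟨⟨(r γ).D.card, t, Finset.univ.filter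
      fun i => (r γ).D.orderEmbOfFin rfl i ∈ (p γ).D⟩, rfl, ht, ?_⟩
    ext β
    simp only [Finset.mem_image, Finset.mem_filter, Finset.mem_univ, true_and]
    constructor
    · intro hβ
      have h1 : β ∈ (r γ).D := (hrp γ).1 hβ
      have : β ∈ Set.range ((r γ).D.orderEmbOfFin rfl) := by
        rw [Finset.range_orderEmbOfFin]; exact h1
      obtain ⟨i, rfl⟩ := this
      exact ⟨i, hβ, rfl⟩
    · rintro ⟨i, hi, rfl⟩
      exact hi)
  set A : Set Om := {γ ∈ Set.univ | ∃ h : (r γ).D.card = n, (r γ).X = convexHull ℝ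
      ((fun g : Fin n → ℚ => place ((r γ).D.orderEmbOfFin h) (castT g)) '' (t : Set _)) ∧
      (p γ).D = I.image ((r γ).D.orderEmbOfFin h)} with hAdef
  let e : Om → Fin n → Om := fun γ =>
    if h : (r γ).D.card = n then (r γ).D.orderEmbOfFin h else fun _ => γ
  obtain ⟨n0, hn0, A', hA'A, hA', hconst, hbig⟩ := delta e hA
  have he : ∀ γ ∈ A', ∀ h : (r γ).D.card = n, e γ = (r γ).D.orderEmbOfFin h := by
    intro γ _ h
    simp only [e, dif_pos h]
  have hcard : ∀ γ ∈ A', (r γ).D.card = n := fun γ hγ => (hA'A hγ).2.1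
  -- one step
  have hstep : ∀ γ ∈ A', ∃ δ ∈ A', a γ < δ ∧ ∀ i j : Fin n, n0 ≤ (j : ℕ) → e γ i < e δ j := by
    intro γ hγ
    obtain ⟨b, hb⟩ := countable_bdd (Set.Countable.insert (a γ)
      (Set.countable_range (e γ)))
    by_cases hn : n0 < n
    · obtain ⟨δ, hδ, h1, h2⟩ := hbig hn b
      refine ⟨δ, hδ, (hb _ (mem_insert _ _)).trans h1, fun i j hj => ?_⟩
      refine (hb _ (mem_insert_of_mem _ ⟨i, rfl⟩)).trans (h2.trans_le ?_)
      rw [he δ hδ (hcard δ hδ)]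
      exact ((r δ).D.orderEmbOfFin _).monotone hj
    · obtain ⟨δ, hδ, h1⟩ := hA' b
      refine ⟨δ, hδ, (hb _ (mem_insert _ _)).trans h1, fun i j hj => ?_⟩
      exact absurd j.2 (by omega)
  choose nx hnx1 hnx2 hnx3 using hstep
  obtain ⟨γ0, hγ0, _⟩ := hA' (Classical.arbitrary Om)
  let s' : ℕ → {γ // γ ∈ A'} := fun k =>
    Nat.rec ⟨γ0, hγ0⟩ (fun _ x => ⟨nx x.1 x.2, hnx1 x.1 x.2⟩) k
  let s : ℕ → Om := fun k => (s' k).1
  have hs : ∀ k, s k ∈ A' := fun k => (s' k).2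
  have hs1 : ∀ k, a (s k) < s (k + 1) := fun k => hnx2 _ (s' k).2
  have hs2 : ∀ k, ∀ i j : Fin n, n0 ≤ (j : ℕ) → e (s k) i < e (s (k + 1)) j :=
    fun k => hnx3 _ (s' k).2
  have hemono : ∀ k, StrictMono (e (s k)) := by
    intro k
    rw [he _ (hs k) (hcard _ (hs k))]
    exact ((r (s k)).D.orderEmbOfFin _).strictMono
  have has : StrictMono (fun k => a (s k)) :=
    strictMono_nat_of_lt_succ fun k => (hs1 k).trans (ha _)
  have hblk : ∀ k l (i j : Fin n), k < l → n0 ≤ (j : ℕ) → e (s k) i < e (s l) j := by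
    intro k l i j hkl hj
    obtain ⟨d, rfl⟩ := Nat.exists_eq_add_of_lt hkl
    clear hkl
    induction d with
    | zero => exact hs2 k i j hj
    | succ d ih =>
      have h2 := hs2 (k + d + 1) j j hj
      exact ih.trans h2
  obtain ⟨M, hM, q, hq, hclose⟩ := amalgam n n0 t (fun k => e (s k)) hemono
    (fun k l i hi => hconst _ (hs k) _ (hs l) i hi) hblk (fun k => r (s k)) (by
      intro k
      rw [he _ (hs k) (hcard _ (hs k))]
      ext β
      have : β ∈ (r (s k)).D ↔ β ∈ Set.range ((r (s k)).D.orderEmbOfFin (hcard _ (hs k))) := by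
        rw [Finset.range_orderEmbOfFin]; rfl
      rw [this]
      simp) (by
      intro k
      obtain ⟨h, hX, _⟩ := (hA'A (hs k)).2
      rw [he _ (hs k) h]
      exact hX) ε hε
  refine ⟨M, hM, s, fun k l hkl => has hkl, q, hq, fun y hy => ?_⟩
  obtain ⟨k, hk, hy⟩ := hclose y hy
  refine ⟨k, hk, ?_⟩
  have hp : ∀ l, ∃ h : (p (s l)).D.card = I.card, ∀ i,
      (p (s l)).D.orderEmbOfFin h i = e (s l) (I.orderEmbOfFin rfl i) := by
    intro l
    obtain ⟨h, _, hD⟩ := (hA'A (hs l)).2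
    have h1 : (p (s l)).D.card = I.card := by
      rw [hD, Finset.card_image_of_injective _ ((r (s l)).D.orderEmbOfFin h).injective]
    refine ⟨h1, fun i => ?_⟩
    have h2 := Finset.orderEmbOfFin_unique h1 (f := fun i => e (s l) (I.orderEmbOfFin rfl i))
      (by
        intro i
        rw [he _ (hs l) h]
        rw [hD]
        exact Finset.mem_image_of_mem _ (Finset.orderEmbOfFin_mem _ _ _))
      ((hemono l).comp (I.orderEmbOfFin rfl).strictMono)
    exact (congrFun h2 i).symm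
  obtain ⟨h1, h1'⟩ := hp k
  obtain ⟨h2, h2'⟩ := hp M
  refine ⟨I.card, h1, h2, fun i => ?_⟩
  rw [h1' i, h2' i]
  exact hy _

end Pool.Agent.W645.CP
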