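import Pool.Agent.W645.CP.Thin

set_option autoImplicit false
set_option linter.unusedSectionVars false

/-!
# The compact convex set given by the principle
-/

open Set Cardinal Topology TopologicalSpace

namespace Pool.Agent.W645.CP

theorem continuous_res (S : Set Om) : Continuous (fun z : Om → ℝ => res S z) := by
  refine continuous_pi fun β => ?_
  by_cases h : β ∈ S
  · have : (fun z : Om → ℝ => res S z β) = fun z => z β := by
      funext z; exact res_mem h z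
    rw [this]; exact continuous_apply β
  · have : (fun z : Om → ℝ => res S z β) = fun _ => 0 := by
      funext z; exact res_not_mem h z
    rw [this]; exact continuous_const

theorem isCompact_X (p : Cnd Om) : IsCompact p.X :=
  Set.Finite.isCompact_convexHull (𝕜 := ℝ) (p.H.finite_toSet.image toR)

/-- the unit cube -/
def cube : Set (Om → ℝ) := Set.pi univ fun _ => Icc 0 1

theorem isCompact_cube : IsCompact cube := isCompact_univ_pi fun _ => isCompact_Icc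

variable {G : Cnd Om → Prop}

/-- the set of all points whose projections are in the polytopes of `G` -/
def KG (G : Cnd Om → Prop) : Set (Om → ℝ) := {z | ∀ p, G p → res (p.D : Set Om) z ∈ p.X}

theorem KG_cube (h2 : ∀ α, ∃ p, G p ∧ α ∈ p.D) : KG G ⊆ cube := by
  intro z hz α _
  obtain ⟨p, hp, hα⟩ := h2 α
  have h := p.unit_X (hz p hp) α
  rw [res_mem (by exact_mod_cast hα)] at h
  exact h

theorem isClosed_KG : IsClosed (KG G) := by
  have : KG G = ⋂ (p) (_ : G p), (fun z => res (p.D : Set Om) z) ⁻¹' p.X := by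
    ext z; simp [KG]
  rw [this]
  exact isClosed_iInter fun p => isClosed_iInter fun _ =>
    (isCompact_X p).isClosed.preimage (continuous_res _)

theorem isCompact_KG (h2 : ∀ α, ∃ p, G p ∧ α ∈ p.D) : IsCompact (KG G) :=
  isCompact_cube.of_isClosed_subset isClosed_KG (KG_cube h2)

theorem convex_KG : Convex ℝ (KG G) := by
  intro u hu v hv a b ha hb hab p hp
  rw [map_add, map_smul, map_smul]
  exact p.convex_X (hu p hp) (hv p hp) ha hb hab

theorem zero_KG : (0 : Om → ℝ) ∈ KG G := by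
  intro p _
  rw [map_zero]; exact p.zero_mem

theorem trunc_KG {z : Om → ℝ} (hz : z ∈ KG G) (γ : Om) : res (Iio γ) z ∈ KG G := by
  intro p hp
  rw [res_comm]
  exact p.trunc_X (hz p hp) γ

theorem lift (h1 : ∀ p q, G p → G q → ∃ r, G r ∧ r ≤ p ∧ r ≤ q) {p : Cnd Om} (hp : G p)
    {x : Om → ℝ} (hx : x ∈ p.X) : ∃ z ∈ KG G, res (p.D : Set Om) z = x := by
  let T : Type := {q : Cnd Om // G q ∧ q ≤ p}
  let C : T → Set (Om → ℝ) := fun q =>
    cube ∩ {z | res (q.1.D : Set Om) z ∈ q.1.X ∧ res (p.D : Set Om) z = x}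
  have hcl : ∀ q, IsClosed (C q) := fun q => isCompact_cube.isClosed.inter
    (((isCompact_X q.1).isClosed.preimage (continuous_res _)).inter
      (isClosed_singleton.preimage (continuous_res _)))
  have hne : ∀ q, (C q).Nonempty := by
    rintro ⟨q, hq, hqp⟩
    have h3 : x ∈ res (p.D : Set Om) '' q.X := by rw [hqp.2]; exact hx
    obtain ⟨y, hy, h4⟩ := h3
    refine ⟨y, fun β _ => q.unit_X hy β, ?_, h4⟩
    rw [res_eq_self fun β hβ => q.supp_X hy (by exact_mod_cast hβ)]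
    exact hy
  have hdir : Directed (· ⊇ ·) C := by
    rintro ⟨q, hq, hqp⟩ ⟨q', hq', hqp'⟩
    obtain ⟨r, hr, h3, h4⟩ := h1 q q' hq hq'
    refine ⟨⟨r, hr, h3.trans hqp⟩, ?_, ?_⟩
    · rintro z ⟨hz, hz1, hz2⟩
      refine ⟨hz, ?_, hz2⟩
      have h5 : res (q.D : Set Om) z = res (q.D : Set Om) (res (r.D : Set Om) z) := by
        rw [res_res, Set.inter_eq_left.2 (by exact_mod_cast h3.1)]
      change res (q.D : Set Om) z ∈ q.X
      rw [h5, ← h3.2]
      exact ⟨_, hz1, rfl⟩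
    · rintro z ⟨hz, hz1, hz2⟩
      refine ⟨hz, ?_, hz2⟩
      have h5 : res (q'.D : Set Om) z = res (q'.D : Set Om) (res (r.D : Set Om) z) := by
        rw [res_res, Set.inter_eq_left.2 (by exact_mod_cast h4.1)]
      change res (q'.D : Set Om) z ∈ q'.X
      rw [h5, ← h4.2]
      exact ⟨_, hz1, rfl⟩
  have : Nonempty T := ⟨⟨p, hp, le_rfl⟩⟩
  obtain ⟨z, hz⟩ := IsCompact.nonempty_iInter_of_directed_nonempty_isCompact_isClosed C hdir hne
    (fun q => isCompact_cube.of_isClosed_subset (hcl q) inter_subset_left) hcl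
  rw [mem_iInter] at hz
  refine ⟨z, fun q hq => ?_, (hz ⟨p, hp, le_rfl⟩).2.2⟩
  obtain ⟨r, hr, h3, h4⟩ := h1 q p hq hp
  have h5 : res (q.D : Set Om) z = res (q.D : Set Om) (res (r.D : Set Om) z) := by
    rw [res_res, Set.inter_eq_left.2 (by exact_mod_cast h3.1)]
  rw [h5, ← h3.2]
  exact ⟨_, (hz ⟨r, hr, h4⟩).2.1, rfl⟩

theorem exists_cover (h1 : ∀ p q, G p → G q → ∃ r, G r ∧ r ≤ p ∧ r ≤ q)
    (h2 : ∀ α, ∃ p, G p ∧ α ∈ p.D) (F : Finset Om) : ∃ p, G p ∧ F ⊆ p.D := by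
  classical
  induction F using Finset.induction_on with
  | empty =>
    obtain ⟨p, hp, _⟩ := h2 (Classical.arbitrary Om)
    exact ⟨p, hp, Finset.empty_subset _⟩
  | insert a s _ ih =>
    obtain ⟨p, hp, h⟩ := ih
    obtain ⟨q, hq, h'⟩ := h2 a
    obtain ⟨r, hr, h3, h4⟩ := h1 p q hp hq
    refine ⟨r, hr, Finset.insert_subset (h4.1 h') (h.trans h3.1)⟩

/-- a basic neighbourhood -/
theorem exists_box {U : Set (Om → ℝ)} (hU : IsOpen U) {z : Om → ℝ} (hz : z ∈ U) :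
    ∃ (F : Finset Om) (n : ℕ), ∀ w : Om → ℝ, (∀ β ∈ F, |w β - z β| < 1 / ((n : ℝ) + 1)) →
      w ∈ U := by
  classical
  obtain ⟨F, u, hu, hsub⟩ := isOpen_pi_iff.1 hU z hz
  have h1 : ∀ β, ∃ n : ℕ, β ∈ F → Metric.ball (z β) (1 / ((n : ℝ) + 1)) ⊆ u β := by
    intro β
    by_cases hβ : β ∈ F
    · obtain ⟨ε, hε, h⟩ := Metric.isOpen_iff.1 (hu β hβ).1 _ (hu β hβ).2
      obtain ⟨n, hn⟩ := exists_nat_one_div_lt hε
      exact ⟨n, fun _ => (Metric.ball_subset_ball hn.le).trans h⟩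
    · exact ⟨0, fun h => absurd h hβ⟩
  choose n hn using h1
  refine ⟨F, F.sup n, fun w hw => hsub fun β hβ => ?_⟩
  have hβ' : β ∈ F := by exact_mod_cast hβ
  refine hn β hβ' ?_
  rw [Metric.mem_ball, Real.dist_eq]
  refine (hw β hβ').trans_le ?_
  have h3 : n β ≤ F.sup n := Finset.le_sup hβ'
  have h4 : ((n β : ℕ) : ℝ) ≤ ((F.sup n : ℕ) : ℝ) := by exact_mod_cast h3
  exact one_div_le_one_div_of_le (by positivity) (by linarith)

/-- there are no right separated sequences of length `ω₁` -/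
theorem no_right_separated (h1 : ∀ p q, G p → G q → ∃ r, G r ∧ r ≤ p ∧ r ≤ q)
    (h2 : ∀ α, ∃ p, G p ∧ α ∈ p.D)
    (h3 : ∀ R : Om → Cnd Om → Prop, (∀ γ, ∃ α p, γ < α ∧ R α p) → (∀ α p, R α p → G p) →
      ∀ n : ℕ, ∃ (β : Om) (p0 : Cnd Om) (L : Finset (Cnd Om)) (q : Cnd Om),
        R β p0 ∧ G q ∧ (∀ p ∈ L, ∃ α, α < β ∧ R α p) ∧ Mimics q p0 L n)
    (U : Om → Set (Om → ℝ)) (hU : ∀ α, IsOpen (U α)) (z : Om → Om → ℝ) (hzK : ∀ α, z α ∈ KG G)
    (hzU : ∀ α, z α ∈ U α) : ∃ α β, α < β ∧ z β ∈ U α := by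
  classical
  by_contra hcon
  push Not at hcon
  choose F n hFn using fun α => exists_box (hU α) (hzU α)
  choose p hpG hpF using fun α => exists_cover h1 h2 (F α)
  let C : Type := ℕ × Σ m : ℕ, (Fin m → ℚ)
  obtain ⟨⟨N, m, c⟩, hA⟩ := pigeon (C := C) (A := Set.univ) (fun γ => by
      obtain ⟨b, hb⟩ := exists_gt γ
      exact ⟨b, mem_univ _, hb⟩)
    (fun α x => n α = x.1 ∧ ∃ h : (p α).D.card = x.2.1, ∀ i,
      |z α ((p α).D.orderEmbOfFin h i) - ((x.2.2 i : ℚ) : ℝ)| < 1 / (4 * ((n α : ℝ) + 1))) (by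
    intro α _
    have h4 : (0 : ℝ) < 1 / (4 * ((n α : ℝ) + 1)) := by positivity
    have h5 : ∀ i, ∃ q : ℚ, |z α ((p α).D.orderEmbOfFin rfl i) - (q : ℝ)| <
        1 / (4 * ((n α : ℝ) + 1)) := by
      intro i
      obtain ⟨q, hq1, hq2⟩ := exists_rat_btwn (show z α ((p α).D.orderEmbOfFin rfl i) <
        z α ((p α).D.orderEmbOfFin rfl i) + 1 / (4 * ((n α : ℝ) + 1)) by linarith)
      refine ⟨q, ?_⟩
      rw [abs_sub_lt_iff]
      constructor <;> linarith
    choose c hc using h5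
    exact ⟨⟨n α, (p α).D.card, c⟩, rfl, rfl, hc⟩)
  set A : Set Om := {α ∈ Set.univ | n α = N ∧ ∃ h : (p α).D.card = m, ∀ i,
      |z α ((p α).D.orderEmbOfFin h i) - ((c i : ℚ) : ℝ)| < 1 / (4 * ((n α : ℝ) + 1))} with hAdef
  obtain ⟨β, p0, L, q, ⟨hβA, hp0⟩, hGq, hL, hqp0, hqL, hq⟩ := h3 (fun α p' => α ∈ A ∧ p' = p α) (by
      intro γ
      obtain ⟨α, hα, h⟩ := hA γ
      exact ⟨α, p α, h, hα, rfl⟩) (by
      rintro α p' ⟨_, rfl⟩
      exact hpG α) (4 * (N + 1))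
  subst hp0
  obtain ⟨p', hp'L, m', hm, hm', hclose⟩ := hq _ (hzK β q hGq)
  obtain ⟨α, hαβ, hαA, rfl⟩ := hL p' hp'L
  refine hcon α β hαβ (hFn α _ fun b hb => ?_)
  obtain ⟨_, hnα, hcα, h4⟩ := hαA
  obtain ⟨_, hnβ, hcβ, h5⟩ := hβA
  have hmm : m' = m := hm.symm.trans hcα
  subst hmm
  have hb' : b ∈ Set.range ((p α).D.orderEmbOfFin hm) := by
    rw [Finset.range_orderEmbOfFin]; exact hpF α hb
  obtain ⟨i, rfl⟩ := hb'
  have h6 := hclose i
  rw [res_mem (by exact_mod_cast (hqL _ hp'L).1 (Finset.orderEmbOfFin_mem _ _ _)),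
    res_mem (by exact_mod_cast hqp0.1 (Finset.orderEmbOfFin_mem _ _ _))] at h6
  have h7 := h4 i
  have h8 := h5 i
  rw [hnα] at h7 ⊢
  rw [hnβ] at h8
  have hN : (0 : ℝ) < (N : ℝ) + 1 := by positivity
  have h9 : 1 / (((4 * (N + 1) : ℕ) : ℝ) + 1) ≤ 1 / (4 * ((N : ℝ) + 1)) := by
    refine one_div_le_one_div_of_le (by positivity) ?_
    push_cast
    linarith
  have h10 : (4 : ℝ) * (1 / (4 * ((N : ℝ) + 1))) = 1 / ((N : ℝ) + 1) := by
    field_simp
  have h11 : (0 : ℝ) < 1 / (4 * ((N : ℝ) + 1)) := by positivity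
  rw [abs_lt] at h7 h8 ⊢
  rw [abs_le] at h6
  constructor <;> linarith [h6.1, h6.2, h7.1, h7.2, h8.1, h8.2]

end Pool.Agent.W645.CP
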